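import Pool.Agent.helper36.NA.Defs
import Pool.Agent.helper3.NTS.Mu

/-!
# MP_c8d30a, (A), section 7: basic facts on `sc`, `pd`, `mu` for the moves of `NA`
-/

set_option autoImplicit false

namespace NA

open NTH Equiv Equiv.Perm

universe u
variable {Ω : Type u} {p : Ω → Ω}

theorem EM.nts {k : ℕ} {s t : St Ω} (h : EM p k s t) : ∃ c, NTS.EM p c s t := by
  cases h with
  | rot A A' B h =>
    obtain ⟨n, hn, rfl⟩ := List.isRotated_iff_mod.1 h
    rw [List.rotate_eq_drop_append_take hn]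
    refine ⟨0, ?_⟩
    have := NTS.EM.rot (p := p) (A.take n) (A.drop n) B
    rwa [List.take_append_drop] at this
  | cm x y z P Q R I P' Q' R' =>
    exact ⟨0, by simpa using NTS.EM.cm (p := p) x y z P Q R I P' Q' R'⟩
  | th1 c x y P Q R D E G F =>
    exact ⟨_, by simpa using NTS.EM.th2 (p := p) c x y P Q R D E G F⟩
  | th2 c x y P Q R D E G F =>
    exact ⟨_, by simpa using NTS.EM.th1 (p := p) c x y P Q R D G F E⟩

theorem EM.perm {k : ℕ} {s t : St Ω} (h : EM p k s t) : (s.1 ++ s.2).Perm (t.1 ++ t.2) := by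
  obtain ⟨c, h⟩ := h.nts
  exact h.perm

theorem EM.le {k : ℕ} {s t : St Ω} (h : EM p k s t) : k ≤ 1 := by
  cases h <;> omega

theorem Pa.perm {n : ℕ} {s t : St Ω} (h : Pa p n s t) : (s.1 ++ s.2).Perm (t.1 ++ t.2) := by
  induction h with
  | refl _ _ => exact List.Perm.refl _
  | head h _ ih => exact h.perm.trans ih

theorem Pa.mono {n m : ℕ} {s t : St Ω} (h : Pa p n s t) (hm : n ≤ m) : Pa p m s t := by
  induction h generalizing m with
  | refl _ _ => exact .refl _ _
  | @head k n s t v h _ ih =>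
    obtain ⟨j, rfl⟩ : ∃ j, m = k + j := ⟨m - k, by omega⟩
    exact .head h (ih (by omega))

theorem Pa.trans {n m : ℕ} {s t v : St Ω} (h : Pa p n s t) (h' : Pa p m t v) : Pa p (n + m) s v := by
  induction h with
  | refl n s => exact h'.mono (by omega)
  | head h _ ih =>
    rw [add_assoc]
    exact .head h (ih h')

theorem Pa.single {k : ℕ} {s t : St Ω} (h : EM p k s t) : Pa p k s t := .head (n := 0) h (.refl 0 t)

theorem Pa.rot (A A' B : List Ω) (h : A ~r A') : Pa p 0 (A, B) (A', B) := .single (.rot A A' B h)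

section dec

variable [DecidableEq Ω]

theorem mu_nts (s : St Ω) : mu p s = NTS.mu p s := rfl

theorem sc_nts (s : St Ω) : sc s = NTS.sg s := rfl

theorem EM.mu (hinv : ∀ t, p (p t) = t) {k : ℕ} {s t : St Ω} (h : EM p k s t) (hn : (s.1 ++ s.2).Nodup) :
    NA.mu p t = NA.mu p s := by
  obtain ⟨c, h⟩ := h.nts
  exact NTS.EM.mu hinv h hn

theorem Pa.mu (hinv : ∀ t, p (p t) = t) {n : ℕ} {s t : St Ω} (h : Pa p n s t) (hn : (s.1 ++ s.2).Nodup) :
    NA.mu p t = NA.mu p s := by
  induction h with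
  | refl _ _ => rfl
  | head h _ ih => rw [ih (h.perm.nodup_iff.1 hn), h.mu hinv hn]

theorem mu_mu (hinv : ∀ t, p (p t) = t) (s : St Ω) (t : Ω) : NA.mu p s (NA.mu p s t) = t := by
  unfold NA.mu
  simp [hinv]

end dec

end NA
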