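import Pool.Agent.helper3.NA.Inv

/-!
# MP_c8d30a, (A), section 7: the step `H`

`u` mixed, directly before the red token `z` in `A`; `y` blue, directly before `p u` in `B`.
The Theta move flips exactly the sides of `u` and `y`.
-/

set_option autoImplicit false

namespace NA

open NTH Equiv Equiv.Perm

universe u
variable {Ω : Type u} {p : Ω → Ω} [DecidableEq Ω]

theorem formPerm_adj {A1 A2 : List Ω} {a b : Ω} (h : (A1 ++ a :: b :: A2).Nodup) :
    List.formPerm (A1 ++ a :: b :: A2) a = b := by
  have h1 : (A1 ++ a :: b :: A2) ~r (a :: b :: (A2 ++ A1)) := by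
    have := List.isRotated_append (l := A1) (l' := a :: b :: A2)
    simpa using this
  rw [List.formPerm_eq_of_isRotated h h1]
  exact List.formPerm_apply_head a b _ (h1.nodup_iff.1 h)

theorem formPerm_last {A : List Ω} {a b : Ω} (h : (b :: (A ++ [a])).Nodup) :
    List.formPerm (b :: (A ++ [a])) a = b := by
  have h1 : (b :: (A ++ [a])) ~r (a :: b :: A) := by
    have := List.isRotated_append (l := b :: A) (l' := [a])
    simpa using this
  rw [List.formPerm_eq_of_isRotated h h1]
  exact List.formPerm_apply_head a b _ (h1.nodup_iff.1 h)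

/-- successor in `A`. -/
theorem sc_A {s : St Ω} (hn : (s.1 ++ s.2).Nodup) {a : Ω} (ha : a ∈ s.1) : sc s a = List.formPerm s.1 a := by
  unfold sc
  rw [Perm.mul_apply, List.formPerm_apply_of_notMem (l := s.2)]
  exact fun h => (List.nodup_append.1 hn).2.2 a ha a h rfl

/-- successor in `B`. -/
theorem sc_B {s : St Ω} (hn : (s.1 ++ s.2).Nodup) {a : Ω} (ha : a ∈ s.2) : sc s a = List.formPerm s.2 a := by
  unfold sc
  rw [Perm.mul_apply, List.formPerm_apply_of_notMem (l := s.1)]
  intro h
  have : List.formPerm s.2 a ∈ s.2 := (List.formPerm_mem_iff_mem).2 ha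
  exact (List.nodup_append.1 hn).2.2 _ h _ this rfl

theorem sc_mem_A {s : St Ω} (hn : (s.1 ++ s.2).Nodup) {a : Ω} : sc s a ∈ s.1 ↔ a ∈ s.1 := by
  constructor
  · intro h
    by_contra h1
    have h2 : sc s a = List.formPerm s.1 (List.formPerm s.2 a) := rfl
    rw [h2, List.formPerm_mem_iff_mem] at h
    by_cases h3 : a ∈ s.2
    · exact (List.nodup_append.1 hn).2.2 _ h _ ((List.formPerm_mem_iff_mem).2 h3) rfl
    · rw [List.formPerm_apply_of_notMem h3] at h
      exact h1 h
  · intro h
    rw [sc_A hn h]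
    exact (List.formPerm_mem_iff_mem).2 h

theorem sc_mem_B {s : St Ω} (hn : (s.1 ++ s.2).Nodup) {a : Ω} : sc s a ∈ s.2 ↔ a ∈ s.2 := by
  constructor
  · intro h
    by_contra h1
    have h2 : sc s a = List.formPerm s.1 (List.formPerm s.2 a) := rfl
    rw [List.formPerm_apply_of_notMem h1] at h2
    rw [h2] at h
    by_cases h3 : a ∈ s.1
    · exact (List.nodup_append.1 hn).2.2 _ ((List.formPerm_mem_iff_mem).2 h3) _ h rfl
    · rw [List.formPerm_apply_of_notMem h3] at h
      exact h1 h
  · intro h
    rw [sc_B hn h]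
    exact (List.formPerm_mem_iff_mem).2 h

@[simp] theorem sc_pd (s : St Ω) (t : Ω) : sc s (pd s t) = t := by simp [pd]

@[simp] theorem pd_sc (s : St Ω) (t : Ω) : pd s (sc s t) = t := by simp [pd]

theorem pd_of_sc {s : St Ω} {a b : Ω} (h : sc s a = b) : pd s b = a := by
  rw [← h, pd_sc]

theorem pd_inj (s : St Ω) {a b : Ω} (h : pd s a = pd s b) : a = b := by
  rw [← sc_pd s a, h, sc_pd]

theorem pd_mem_A {s : St Ω} (hn : (s.1 ++ s.2).Nodup) {a : Ω} : pd s a ∈ s.1 ↔ a ∈ s.1 := by
  rw [← sc_mem_A hn, sc_pd]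

theorem pd_mem_B {s : St Ω} (hn : (s.1 ++ s.2).Nodup) {a : Ω} : pd s a ∈ s.2 ↔ a ∈ s.2 := by
  rw [← sc_mem_B hn, sc_pd]

/-- the ends of the edge with the occupant `a`. -/
theorem mu_pd (s : St Ω) (a : Ω) : mu p s (pd s a) = pd s (p a) := by
  simp [mu, pd]

theorem mu_eq_pd (s : St Ω) (a : Ω) : mu p s a = pd s (p (sc s a)) := rfl

/-- a token and its successor in `A`. -/
theorem exists_rot {l : List Ω} (hn : l.Nodup) {a b : Ω} (ha : a ∈ l) (hb : List.formPerm l a = b) (hne : b ≠ a) :
    ∃ l', l ~r a :: b :: l' := by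
  obtain ⟨l1, l2, rfl⟩ := List.append_of_mem ha
  have h1 : (l1 ++ a :: l2) ~r (a :: (l2 ++ l1)) := by
    have := List.isRotated_append (l := l1) (l' := a :: l2)
    simpa using this
  rw [List.formPerm_eq_of_isRotated hn h1] at hb
  cases h : l2 ++ l1 with
  | nil =>
    rw [h] at hb
    simp only [List.formPerm_singleton, Perm.coe_one, id_eq] at hb
    exact absurd hb.symm hne
  | cons c l' =>
    rw [h] at hb h1
    rw [List.formPerm_apply_head a c _ (h1.nodup_iff.1 hn)] at hb
    subst hb
    exact ⟨l', h1⟩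

/-- a token of `B`, not the last one, and its successor. -/
theorem exists_adj {l : List Ω} (hn : l.Nodup) {a b : Ω} (ha : a ∈ l) (hb : List.formPerm l a = b)
    (hl : l.getLast? ≠ some a) : ∃ l1 l2, l = l1 ++ a :: b :: l2 := by
  obtain ⟨l1, l2, rfl⟩ := List.append_of_mem ha
  cases l2 with
  | nil => simp at hl
  | cons c l2 =>
    rw [formPerm_adj hn] at hb
    subst hb
    exact ⟨l1, l2, rfl⟩

/-- the effect of a Theta move on the predecessors. -/
theorem pd_th {s t : St Ω} {c x x' y c' y' : Ω} (hd : [c, x, x', y, c', y'].Nodup)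
    (h : sc t = (swap c x * swap x y' * (swap c' x' * swap x' y)) * sc s) :
    pd t x = pd s c ∧ pd t c = pd s y' ∧ pd t y' = pd s x ∧ pd t c' = pd s y ∧ pd t x' = pd s c' ∧
      pd t y = pd s x' ∧ ∀ o, o ≠ c → o ≠ x → o ≠ x' → o ≠ y → o ≠ c' → o ≠ y' → pd t o = pd s o := by
  have key : ∀ a b, (swap c x * swap x y' * (swap c' x' * swap x' y)) b = a → pd t a = pd s b := by
    intro a b hab
    unfold pd
    rw [h, Equiv.symm_apply_eq, Perm.mul_apply, Equiv.apply_symm_apply, hab]
  simp only [List.nodup_cons, List.mem_cons, List.not_mem_nil, or_false, not_or, not_false_eq_true, List.nodup_nil,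
    and_true] at hd
  obtain ⟨⟨d1, d2, d3, d4, d5⟩, ⟨d6, d7, d8, d9⟩, ⟨d10, d11, d12⟩, ⟨d13, d14⟩, d15⟩ := hd
  refine ⟨key _ _ ?_, key _ _ ?_, key _ _ ?_, key _ _ ?_, key _ _ ?_, key _ _ ?_, fun o h1 h2 h3 h4 h5 h6 => key _ _ ?_⟩ <;>
    simp only [Perm.mul_apply] <;>
    simp [swap_apply_def, d1, d2, d3, d4, d5, d6, d7, d8, d9, d10, d11, d12, d13, d14, d15, Ne.symm, *,
      Ne.symm d1, Ne.symm d2, Ne.symm d3, Ne.symm d4, Ne.symm d5, Ne.symm d6, Ne.symm d7, Ne.symm d8, Ne.symm d9,
      Ne.symm d10, Ne.symm d11, Ne.symm d12, Ne.symm d13, Ne.symm d14, Ne.symm d15]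

/-- the step `H` after the attaching. -/
theorem stepH_core {s : St Ω} (hw : WF p s) {z u y : Ω} (hz : Red p s z) (hu : MA p s u) (hy : Blu p s y)
    (h1 : sc s u = z) (h2 : sc s y = p u) (hl : s.2.getLast? ≠ some y) :
    ∃ t, Pa p 1 s t ∧ t.1.Perm (y :: s.1.erase u) ∧ t.2.Perm (u :: s.2.erase y) ∧ pd t z = pd s u ∧ pd t (p z) = y ∧
      pd t (p u) = pd s y ∧ pd t u = pd s (p y) ∧ pd t (p y) = u ∧ pd t y = pd s (p z) ∧
      (∀ v, v ≠ z → v ≠ p z → v ≠ u → v ≠ p u → v ≠ y → v ≠ p y → pd t v = pd s v) ∧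
      ((∀ v, s.2.head? = some v → MB p s v) → ∀ v, t.2.head? = some v → MB p t v) := by
  obtain ⟨A, B⟩ := s
  have hn := hw.nd
  have hnA : A.Nodup := (List.nodup_append.1 hn).1
  have hnB : B.Nodup := (List.nodup_append.1 hn).2.1
  have hdj : ∀ a, a ∈ A → a ∉ B := fun a ha hb => (List.nodup_append.1 hn).2.2 a ha a hb rfl
  have hzu : z ≠ u := by
    rintro rfl
    exact hdj _ hz.2 hu.2
  have hpzu : p z ≠ u := by
    intro h
    have := hu.2
    rw [← h, hw.inv] at this
    exact hdj _ hz.1 this
  have hypu : p y ≠ p u := by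
    intro h
    have h3 : y = u := by rw [← hw.inv y, h, hw.inv]
    subst h3
    exact hdj _ hu.1 hy.1
  obtain ⟨A', hA⟩ := exists_rot (b := z) hnA hu.1 (by rw [← h1]; exact (sc_A hn hu.1).symm) hzu
  obtain ⟨B1, B2, hB0⟩ := exists_adj (b := p u) hnB hy.1 (by rw [← h2]; exact (sc_B hn hy.1).symm) hl
  subst hB0
  -- the other token of `z`
  have hpz : p z ∈ A' := by
    have := (hA.perm.mem_iff).1 hz.2
    simp only [List.mem_cons] at this
    rcases this with h | h | h
    · exact absurd h hpzu
    · exact absurd h (hw.ne z)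
    · exact h
  obtain ⟨Q, R, rfl⟩ := List.append_of_mem hpz
  have hA2 : A ~r u :: ([] ++ z :: (Q ++ p z :: R)) := hA
  -- the general end of the proof
  have fin : ∀ (D X Y : List Ω) (B B' : List Ω), (A ++ B).Nodup →
      Pa p 1 (A, B) (z :: (Q ++ y :: p z :: R), B') →
      B.Perm (y :: p u :: p y :: (D ++ X)) → B'.Perm (p u :: u :: p y :: (D ++ X)) →
      sc (z :: (Q ++ y :: p z :: R), B') = (swap u z * swap z (p y) * (swap (p u) (p z) * swap (p z) y)) * sc (A, B) →
      (z :: (Q ++ y :: p z :: R)).Perm (y :: A.erase u) ∧ B'.Perm (u :: B.erase y) ∧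
      pd (z :: (Q ++ y :: p z :: R), B') z = pd (A, B) u ∧ pd (z :: (Q ++ y :: p z :: R), B') (p z) = pd (A, B) (p u) ∧
      pd (z :: (Q ++ y :: p z :: R), B') (p u) = pd (A, B) y ∧ pd (z :: (Q ++ y :: p z :: R), B') u = pd (A, B) (p y) ∧
      pd (z :: (Q ++ y :: p z :: R), B') (p y) = pd (A, B) z ∧ pd (z :: (Q ++ y :: p z :: R), B') y = pd (A, B) (p z) ∧
      (∀ v, v ≠ z → v ≠ p z → v ≠ u → v ≠ p u → v ≠ y → v ≠ p y → pd (z :: (Q ++ y :: p z :: R), B') v = pd (A, B) v) := by
    intro D X _ B B' hnd _ hB hB' hsc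
    have hsix : [u, z, p z, y, p u, p y].Nodup := by
      have h5 : (A ++ B).Perm ((u :: z :: (Q ++ p z :: R)) ++ (y :: p u :: p y :: (D ++ X))) :=
        hA.perm.append hB
      have h6 := h5.nodup_iff.1 hnd
      refine h6.sublist ?_
      have e : [u, z, p z, y, p u, p y] = (u :: z :: ([] ++ p z :: [])) ++ (y :: p u :: p y :: ([] ++ [])) := rfl
      rw [e]
      refine List.Sublist.append ?_ ?_
      · exact (((List.nil_sublist Q).append ((List.nil_sublist R).cons_cons _)).cons_cons _).cons_cons _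
      · exact ((((List.nil_sublist D).append (List.nil_sublist X)).cons_cons _).cons_cons _).cons_cons _
    have hp := pd_th hsix hsc
    refine ⟨?_, ?_, hp.1, hp.2.2.2.2.1, hp.2.2.2.1, hp.2.1, hp.2.2.1, hp.2.2.2.2.2.1, ?_⟩
    · have h7 : (A.erase u).Perm (z :: (Q ++ p z :: R)) := by
        have := (hA.perm.erase u)
        simpa using this
      refine List.Perm.trans ?_ (h7.symm.cons y)
      rw [List.perm_iff_count]
      intro a
      simp only [List.count_append, List.count_cons]
      omega
    · have h7 : (B.erase y).Perm (p u :: p y :: (D ++ X)) := by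
        have := (hB.erase y)
        simpa using this
      refine hB'.trans (List.Perm.trans ?_ (h7.symm.cons u))
      exact List.Perm.swap _ _ _
    · intro v h1 h2 h3 h4 h5 h6
      exact hp.2.2.2.2.2.2 v h3 h1 h2 h5 h4 h6
  -- the other token of `y`
  have hpy := hy.2
  simp only [List.mem_append, List.mem_cons] at hpy
  rcases hpy with hpy | hpy | hpy | hpy
  · obtain ⟨D, E, rfl⟩ := List.append_of_mem hpy
    have hmv : Pa p 1 (A, (D ++ p y :: E) ++ y :: p u :: B2) (z :: (Q ++ y :: p z :: R), D ++ u :: p y :: (E ++ p u :: B2)) := by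
      have h3 := (Pa.rot (p := p) A _ ((D ++ p y :: E) ++ y :: p u :: B2) hA)
      have h4 := Pa.single (EM.th1 (p := p) u z y [] Q R D E [] B2)
      have h5 := h3.trans (by simpa using h4)
      simpa using h5
    have hsc : sc (z :: (Q ++ y :: p z :: R), D ++ u :: p y :: (E ++ p u :: B2)) =
        (swap u z * swap z (p y) * (swap (p u) (p z) * swap (p z) y)) * sc (A, (D ++ p y :: E) ++ y :: p u :: B2) := by
      have h6 : sc (A, (D ++ p y :: E) ++ y :: p u :: B2) = sc (u :: z :: (Q ++ p z :: R), D ++ p y :: (E ++ y :: p u :: B2)) := by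
        unfold sc
        simp only
        rw [List.formPerm_eq_of_isRotated hnA hA]
        simp
      rw [h6]
      have h7 := NTS.sg_th2 u z y [] Q R D E [] B2 (p u) (p z) (p y) (by
        have := (hA.perm.append_right ((D ++ p y :: E) ++ y :: p u :: B2)).nodup_iff.1 hn
        simpa using this)
      simpa [sc_nts] using h7
    have hfin := fin D (E ++ B2) [] _ _ hn hmv ?_ ?_ hsc
    · obtain ⟨g1, g2, g3, g4, g5, g6, g7, g8, g9⟩ := hfin
      refine ⟨_, hmv, g1, g2, g3, ?_, g5, g6, ?_, g8, g9, ?_⟩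
      · exact g4.trans (pd_of_sc h2)
      · exact g7.trans (pd_of_sc h1)
      · intro hh v hv
        cases D with
        | nil =>
          have h8 := hh (p y) (by simp)
          have h9 := h8.2
          rw [hw.inv] at h9
          exact absurd hy.1 (hdj _ h9)
        | cons d D =>
          obtain rfl : d = v := by simpa using hv
          have h8 := hh d (by simp)
          refine ⟨by simp, ?_⟩
          have h9 := (hA.perm.mem_iff).1 h8.2
          have h10 : p d ≠ u := by
            intro h
            have h11 : d = p u := by rw [← h, hw.inv]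
            have h12 := hnB
            rw [h11] at h12
            simp at h12
          simp only [List.mem_cons, List.mem_append] at h9 ⊢
          (first | grind | tauto)
    · rw [List.perm_iff_count]
      intro a
      simp only [List.count_append, List.count_cons]
      omega
    · rw [List.perm_iff_count]
      intro a
      simp only [List.count_append, List.count_cons]
      omega
  · exact absurd hpy (hw.ne y)
  · exact absurd hpy hypu
  · obtain ⟨F, E, rfl⟩ := List.append_of_mem hpy
    have hmv : Pa p 1 (A, B1 ++ y :: p u :: (F ++ p y :: E)) (z :: (Q ++ y :: p z :: R), B1 ++ p u :: (F ++ u :: p y :: E)) := by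
      have h3 := (Pa.rot (p := p) A _ (B1 ++ y :: p u :: (F ++ p y :: E)) hA)
      have h4 := Pa.single (EM.th2 (p := p) u z y [] Q R B1 E [] F)
      have h5 := h3.trans (by simpa using h4)
      simpa using h5
    have hsc : sc (z :: (Q ++ y :: p z :: R), B1 ++ p u :: (F ++ u :: p y :: E)) =
        (swap u z * swap z (p y) * (swap (p u) (p z) * swap (p z) y)) * sc (A, B1 ++ y :: p u :: (F ++ p y :: E)) := by
      have h6 : sc (A, B1 ++ y :: p u :: (F ++ p y :: E)) = sc (u :: z :: (Q ++ p z :: R), B1 ++ y :: p u :: (F ++ p y :: E)) := by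
        unfold sc
        simp only
        rw [List.formPerm_eq_of_isRotated hnA hA]
      rw [h6]
      have h7 := NTS.sg_th1 u z y [] Q R B1 [] F E (p u) (p z) (p y) (by
        have := (hA.perm.append_right (B1 ++ y :: p u :: (F ++ p y :: E))).nodup_iff.1 hn
        simpa using this)
      simpa [sc_nts] using h7
    have hfin := fin B1 (F ++ E) [] _ _ hn hmv ?_ ?_ hsc
    · obtain ⟨g1, g2, g3, g4, g5, g6, g7, g8, g9⟩ := hfin
      refine ⟨_, hmv, g1, g2, g3, ?_, g5, g6, ?_, g8, g9, ?_⟩
      · exact g4.trans (pd_of_sc h2)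
      · exact g7.trans (pd_of_sc h1)
      · intro hh v hv
        cases B1 with
        | nil =>
          have h8 := hh y (by simp)
          exact absurd hy.2 (hdj _ h8.2)
        | cons d D =>
          obtain rfl : d = v := by simpa using hv
          have h8 := hh d (by simp)
          refine ⟨by simp, ?_⟩
          have h9 := (hA.perm.mem_iff).1 h8.2
          have h10 : p d ≠ u := by
            intro h
            have h11 : d = p u := by rw [← h, hw.inv]
            have h12 := hnB
            rw [h11] at h12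
            simp at h12
          simp only [List.mem_cons, List.mem_append] at h9 ⊢
          (first | grind | tauto)
    · rw [List.perm_iff_count]
      intro a
      simp only [List.count_append, List.count_cons]
      omega
    · rw [List.perm_iff_count]
      intro a
      simp only [List.count_append, List.count_cons]
      omega

end NA
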