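import Pool.Agent.helper3.NA.DlL

/-!
# MP_c8d30a, (A), section 9: one step of the blue walk
-/

set_option autoImplicit false

namespace NA

open NTH

universe u
variable {Ω : Type u} {p : Ω → Ω}

theorem wdj {s : St Ω} (hw : WF p s) {a : Ω} (ha : a ∈ s.1) (hb : a ∈ s.2) : False :=
  (List.nodup_append.1 hw.nd).2.2 a ha a hb rfl

theorem wcas {s : St Ω} (hw : WF p s) {a : Ω} (ha : a ∈ s.1 ∨ a ∈ s.2) : p a ∈ s.1 ∨ p a ∈ s.2 := by
  have := hw.cl a (List.mem_append.2 ha)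
  exact List.mem_append.1 this

section dec

variable [DecidableEq Ω] {s : St Ω} {x f : Ω} {S : Finset Ω}

/-- the target ends. -/
def TG (p : Ω → Ω) (f : Ω) (s : St Ω) (e : Ω) : Prop := Blu p s (sc s e) ∧ p (sc s e) ≠ f

theorem BI.pS (h : BI p s x f S) {v : Ω} (hv : v ∈ S) : p v ∈ S := by
  have := (h.blu v).1 hv
  exact (h.blu _).2 ⟨this.2, by rw [h.wf.inv]; exact this.1⟩

theorem BI.muA (h : BI p s x f S) {w : Ω} (hw : w ∈ S) : mu p s w ∈ s.1 := by
  have hb := (h.blu w).1 hw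
  rw [mu_eq_pd, pd_mem_A h.wf.nd]
  have h1 : sc s w ∈ s.2 := (sc_mem_B h.wf.nd).2 hb.1
  rcases wcas h.wf (Or.inr h1) with h2 | h2
  · exact h2
  · exfalso
    have h3 := h.iso (sc s w) ((h.blu _).2 ⟨h1, h2⟩)
    rw [pd_sc] at h3
    exact wdj h.wf h3.2 hb.2

theorem BI.redz (h : BI p s x f S) {z : Ω} (hz : z = x ∨ z = p x) : Red p s z := by
  rcases hz with rfl | rfl
  · exact h.red
  · exact ⟨h.red.2, by rw [h.wf.inv]; exact h.red.1⟩

/-- the step with all data. `u = pd s z`. -/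
theorem BI.step0 (att : Att p) (h : BI p s x f S) (hR : ¬ RR (cA p s) (cB p s)) {z w u : Ω} (hz : z = x ∨ z = p x)
    (hzu : pd s z = u) (hu : MA p s u) (hw : w ∈ S) (hwf : w ≠ f) (hq : MA p s (mu p s w)) (hqu : mu p s w ≠ u)
    (hwu : pd s w ≠ p u) :
    ∃ t, Pa p 1 s t ∧ WF p t ∧ Red p t x ∧ (∀ v, Red p t v → v = x ∨ v = p x) ∧
      (∀ v, Blu p t v ↔ (v ∈ S ∧ v ≠ w ∧ v ≠ p w) ∨ v = u ∨ v = p u) ∧
      (∀ v, v ∈ t.1 ↔ (v ∈ s.1 ∧ v ≠ u) ∨ v = w) ∧ (∀ v, v ∈ t.2 ↔ (v ∈ s.2 ∧ v ≠ w) ∨ v = u) ∧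
      pd t z = mu p s w ∧ pd t (p z) = w ∧ pd t (p u) = pd s w ∧ pd t u = pd s (p w) ∧
      (∀ v ∈ S, v ≠ w → v ≠ p w → pd t v = pd s v) ∧
      (∀ v, t.2.head? = some v → MB p t v) ∧ t.2.getLast? = some f ∧ mx p t = mx p s := by
  have hwf' := h.wf
  have hbw := (h.blu w).1 hw
  have hred := h.redz hz
  obtain ⟨t, h1, h2, h3, h4, h5, h6, h7, h8, h9, h10⟩ := stepH att h.wf hred (by rw [hzu]; exact hu) hbw
    (h.muA hw) (by rw [h.last]; exact fun h' => hwf (Option.some.inj h').symm)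
    (fun hg => hqu (by have := gnd_MA h.wf hq hg; rw [← this, hzu])) (fun hg => hwu (by
      have := gnd_blu h.wf hbw (h.iso w hw) hg; rw [← this, hzu])) hR
  rw [hzu] at h2 h3 h6 h7 h8
  have hn1 : s.1.Nodup := (List.nodup_append.1 h.wf.nd).1
  have hn2 : s.2.Nodup := (List.nodup_append.1 h.wf.nd).2.1
  have m1 : ∀ v, v ∈ t.1 ↔ (v ∈ s.1 ∧ v ≠ u) ∨ v = w := by
    intro v
    rw [h2.mem_iff, List.mem_cons, hn1.mem_erase_iff]
    (first | grind | tauto)
  have m2 : ∀ v, v ∈ t.2 ↔ (v ∈ s.2 ∧ v ≠ w) ∨ v = u := by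
    intro v
    rw [h3.mem_iff, List.mem_cons, hn2.mem_erase_iff]
    (first | grind | tauto)
  have hpp := h.wf.inv
  have uw : u ≠ w := fun e => wdj h.wf hu.1 (e ▸ hbw.1)
  have puw : p u ≠ w := fun e => wdj h.wf hu.1 (by rw [← hpp u, e]; exact hbw.2)
  have upw : u ≠ p w := fun e => wdj h.wf hu.1 (e ▸ hbw.2)
  have pupw : p u ≠ p w := fun e => uw (by rw [← hpp u, e, hpp])
  refine ⟨t, h1, h1.wf h.wf, ?_, ?_, ?_, m1, m2, h4, h5, h6, h7, ?_, h10 h.hd, by rw [h1.last]; exact h.last, ?_⟩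
  · refine ⟨(m1 _).2 (Or.inl ⟨h.red.1, ?_⟩), (m1 _).2 (Or.inl ⟨h.red.2, ?_⟩)⟩
    · rintro rfl
      exact wdj h.wf h.red.2 hu.2
    · rintro rfl
      have := hu.2
      rw [hpp] at this
      exact wdj h.wf h.red.1 this
  · rintro v ⟨v1, v2⟩
    apply h.only
    rw [m1] at v1 v2
    rcases v1 with ⟨v1, -⟩ | v1
    · rcases v2 with ⟨v2, -⟩ | v2
      · exact ⟨v1, v2⟩
      · exfalso
        have : v = p w := by rw [← v2, hpp]
        rw [this] at v1
        exact wdj h.wf v1 hbw.2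
    · rcases v2 with ⟨v2, -⟩ | v2
      · exfalso
        rw [v1] at v2
        exact wdj h.wf v2 hbw.2
      · exfalso
        rw [v1] at v2
        exact h.wf.ne w v2
  · intro v
    constructor
    · rintro ⟨v1, v2⟩
      rw [m2] at v1 v2
      by_cases c1 : v = u
      · exact Or.inr (Or.inl c1)
      by_cases c2 : v = p u
      · exact Or.inr (Or.inr c2)
      left
      have v1' : v ∈ s.2 ∧ v ≠ w := by (first | grind | tauto)
      have v2' : p v ∈ s.2 ∧ p v ≠ w := by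
        rcases v2 with v2 | v2
        · exact v2
        · exact absurd (by rw [← v2, hpp]) c2
      refine ⟨(h.blu v).2 ⟨v1'.1, v2'.1⟩, v1'.2, ?_⟩
      rintro rfl
      rw [hpp] at v2'
      exact v2'.2 rfl
    · rintro (⟨v1, v2, v3⟩ | rfl | rfl)
      · have v4 := (h.blu v).1 v1
        refine ⟨(m2 _).2 (Or.inl ⟨v4.1, v2⟩), (m2 _).2 (Or.inl ⟨v4.2, ?_⟩)⟩
        intro e
        exact v3 (by rw [← e, hpp])
      · exact ⟨(m2 _).2 (Or.inr rfl), (m2 _).2 (Or.inl ⟨hu.2, puw⟩)⟩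
      · exact ⟨(m2 _).2 (Or.inl ⟨hu.2, puw⟩), by rw [hpp]; exact (m2 _).2 (Or.inr rfl)⟩
  · intro v hv v1 v2
    have v3 := (h.blu v).1 hv
    refine h9 v (Or.inr v3) ?_ ?_ v1 v2
    · rintro rfl
      exact wdj h.wf hred.1 v3.1
    · rintro rfl
      exact wdj h.wf hred.2 v3.1
  · unfold mx
    rw [h2.countP_eq, List.countP_cons]
    have e1 : s.1.countP (fun v => decide (p v ∈ s.2)) = (u :: s.1.erase u).countP (fun v => decide (p v ∈ s.2)) :=
      (List.perm_cons_erase hu.1).countP_eq _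
    rw [e1, List.countP_cons]
    have e2 : decide (p w ∈ t.2) = true := by
      rw [decide_eq_true_eq]
      exact (m2 _).2 (Or.inl ⟨hbw.2, h.wf.ne w⟩)
    have e3 : decide (p u ∈ s.2) = true := by
      rw [decide_eq_true_eq]
      exact hu.2
    rw [e2, e3]
    congr 1
    refine List.countP_congr ?_
    intro v hv
    rw [decide_eq_true_eq, decide_eq_true_eq, m2]
    rw [hn1.mem_erase_iff] at hv
    constructor
    · rintro (⟨v1, -⟩ | v1)
      · exact v1
      · exfalso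
        have : v = p u := by rw [← v1, hpp]
        rw [this] at hv
        exact wdj h.wf hv.2 hu.2
    · intro v1
      refine Or.inl ⟨v1, ?_⟩
      intro e
      have : v = p w := by rw [← e, hpp]
      rw [this] at hv
      exact wdj h.wf hv.2 hbw.2

/-- the step, if `p u` is not an end: everything is isolated again. -/
theorem BI.step (att : Att p) (h : BI p s x f S) (hR : ¬ RR (cA p s) (cB p s)) {z w u : Ω} (hz : z = x ∨ z = p x)
    (hzu : pd s z = u) (hu : MA p s u) (hw : w ∈ S) (hwf : w ≠ f) (hq : MA p s (mu p s w)) (hqu : mu p s w ≠ u)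
    (hend : ∀ v ∈ S, pd s v ≠ p u) :
    ∃ (t : St Ω) (S' : Finset Ω), Pa p 1 s t ∧ BI p t x f S' ∧ S'.card = S.card ∧ MA p t (pd t x) ∧ MA p t (pd t (p x)) ∧
      (∀ v, v ∈ t.1 ↔ (v ∈ s.1 ∧ v ≠ u) ∨ v = w) ∧ (p u ≠ f → ∀ e, TG p f s e → TG p f t e) ∧ mx p t = mx p s := by
  obtain ⟨t, h1, h2, h3, h4, h5, h6, h7, h8, h9, h10, h11, h12, h13, h14, h15⟩ :=
    h.step0 att hR hz hzu hu hw hwf hq hqu (hend w hw)
  have hbw := (h.blu w).1 hw
  have hpp := h.wf.inv
  have hpw : p w ∈ S := h.pS hw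
  have uw : u ≠ w := fun e => wdj h.wf hu.1 (e ▸ hbw.1)
  have puw : p u ≠ w := fun e => wdj h.wf hu.1 (by rw [← hpp u, e]; exact hbw.2)
  have upw : u ≠ p w := fun e => wdj h.wf hu.1 (e ▸ hbw.2)
  have pupw : p u ≠ p w := fun e => uw (by rw [← hpp u, e, hpp])
  have uS : u ∉ S := fun e => wdj h.wf hu.1 ((h.blu u).1 e).1
  have puS : p u ∉ S := fun e => uS (by have := h.pS e; rwa [hpp] at this)
  -- mixed tokens in `B` other than `p u` stay mixed
  have mb : ∀ v, MB p s v → v ≠ p u → MB p t v := by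
    intro v hv hne
    refine ⟨(h7 v).2 (Or.inl ⟨hv.1, ?_⟩), (h6 _).2 (Or.inl ⟨hv.2, ?_⟩)⟩
    · rintro rfl
      exact wdj h.wf hv.2 hbw.2
    · intro e
      exact hne (by rw [← e, hpp])
  have ma : ∀ v, MA p s v → v ≠ u → MA p t v := by
    intro v hv hne
    refine ⟨(h6 v).2 (Or.inl ⟨hv.1, hne⟩), (h7 _).2 (Or.inl ⟨hv.2, ?_⟩)⟩
    intro e
    have : v = p w := by rw [← e, hpp]
    rw [this] at hv
    exact wdj h.wf hv.1 hbw.2
  have maw : MA p t w := ⟨(h6 w).2 (Or.inr rfl), (h7 _).2 (Or.inl ⟨hbw.2, h.wf.ne w⟩)⟩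
  have maq : MA p t (mu p s w) := ma _ hq hqu
  refine ⟨t, insert u (insert (p u) ((S.erase w).erase (p w))), h1, ⟨h2, h3, h4, ?_, ?_, h13, h14⟩, ?_, ?_, ?_, h6, ?_, h15⟩
  · intro v
    rw [h5 v, Finset.mem_insert, Finset.mem_insert, Finset.mem_erase, Finset.mem_erase]
    (first | grind | tauto)
  · intro v hv
    rw [Finset.mem_insert, Finset.mem_insert, Finset.mem_erase, Finset.mem_erase] at hv
    rcases hv with rfl | rfl | ⟨v1, v2, v3⟩
    · rw [h11]
      exact mb _ (h.iso _ hpw) (hend _ hpw)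
    · rw [h10]
      exact mb _ (h.iso _ hw) (hend _ hw)
    · rw [h12 v v3 v2 v1]
      exact mb _ (h.iso _ v3) (hend _ v3)
  · rw [Finset.card_insert_of_notMem, Finset.card_insert_of_notMem, Finset.card_erase_of_mem, Finset.card_erase_of_mem hw]
    · have : 2 ≤ S.card := by
        have h1 : ({w, p w} : Finset Ω).card ≤ S.card := Finset.card_le_card (by
          intro a ha
          rw [Finset.mem_insert, Finset.mem_singleton] at ha
          rcases ha with rfl | rfl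
          · exact hw
          · exact hpw)
        rwa [Finset.card_pair (fun e => h.wf.ne w e.symm)] at h1
      omega
    · exact Finset.mem_erase.2 ⟨h.wf.ne w, hpw⟩
    · rw [Finset.mem_erase, Finset.mem_erase]
      exact fun e => puS e.2.2
    · rw [Finset.mem_insert, Finset.mem_erase, Finset.mem_erase]
      rintro (e | e)
      · exact h.wf.ne u e.symm
      · exact uS e.2.2
  · rcases hz with rfl | rfl
    · rw [h8]
      exact maq
    · rw [hpp] at h9
      rw [h9]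
      exact maw
  · rcases hz with rfl | rfl
    · rw [h9]
      exact maw
    · rw [h8]
      exact maq
  · rintro hpuf e ⟨e1, e2⟩
    have e3 : pd s (sc s e) = e := pd_sc s e
    have e4 : sc s e ∈ S := (h.blu _).2 e1
    by_cases c1 : sc s e = w
    · -- the end of `p u`
      have e5 : sc t e = p u := by
        rw [← e3, c1, ← h10, sc_pd]
      refine ⟨by rw [e5]; exact (h5 _).2 (Or.inr (Or.inr rfl)), ?_⟩
      rw [e5, hpp]
      rintro rfl
      have : u ∈ s.2 := List.mem_of_getLast? h.last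
      exact wdj h.wf hu.1 this
    by_cases c2 : sc s e = p w
    · have e5 : sc t e = u := by
        rw [← e3, c2, ← h11, sc_pd]
      refine ⟨by rw [e5]; exact (h5 _).2 (Or.inr (Or.inl rfl)), ?_⟩
      rw [e5]
      exact hpuf
    · have e5 : sc t e = sc s e := by
        have := h12 _ e4 c1 c2
        rw [e3] at this
        rw [← this, sc_pd]
        rw [this]
      refine ⟨by rw [e5]; exact (h5 _).2 (Or.inl ⟨e4, c1, c2⟩), ?_⟩
      rw [e5]
      exact e2

end dec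

end NA
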