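import Pool.Agent.helper36.NA.SpecW
import Pool.Agent.helper3.NA.BStep

/-!
# MP_c8d30a, (A), section 9: the blue walk
-/

set_option autoImplicit false

namespace NA

open NTH NAW

/-! ### small facts -/

theorem Drop.up {Ω : Type} [DecidableEq Ω] {p : Ω → Ω} {n k : ℕ} {s : St Ω} (h : Drop p n s) (hk : n ≤ k) :
    Drop p k s := by
  obtain ⟨t, h1, h2⟩ := h
  exact ⟨t, h1.mono hk, h2⟩

theorem Drop.pre {Ω : Type} [DecidableEq Ω] {p : Ω → Ω} {n k : ℕ} {s t : St Ω} (h : Pa p n s t) (hm : mx p t = mx p s)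
    (hd : Drop p k t) : Drop p (n + k) s := by
  obtain ⟨v, h1, h2⟩ := hd
  exact ⟨v, h.trans h1, by omega⟩

theorem exists_mem_not {Ω : Type} [DecidableEq Ω] (S : Finset Ω) (L : List Ω) (h : L.length < S.card) :
    ∃ w ∈ S, w ∉ L := by
  by_contra hc
  push Not at hc
  have h1 : S ⊆ L.toFinset := fun w hw => List.mem_toFinset.2 (hc w hw)
  have h2 := Finset.card_le_card h1
  have h3 := L.toFinset_card_le
  omega

section

variable {Ω : Type} [DecidableEq Ω] {p : Ω → Ω} {s : St Ω} {x f : Ω} {S : Finset Ω}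

theorem sc_last {s : St Ω} (hw : WF p s) {f : Ω} (h : s.2.getLast? = some f) : s.2.head? = some (sc s f) := by
  obtain ⟨A, B⟩ := s
  simp only at h ⊢
  obtain ⟨l, rfl⟩ := List.getLast?_eq_some_iff.1 h
  have h1 : sc (A, l ++ [f]) f = List.formPerm (l ++ [f]) f := sc_B hw.nd (by simp)
  rw [h1]
  cases l with
  | nil => simp
  | cons b l =>
    have := formPerm_last (A := l) (a := f) (b := b) ((List.nodup_append.1 hw.nd).2.1)
    rw [List.cons_append, this]
    rfl

theorem mu_mem (hw : WF p s) {a : Ω} (ha : a ∈ s.1 ∨ a ∈ s.2) : mu p s a ∈ s.1 ∨ mu p s a ∈ s.2 := by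
  rw [mu_eq_pd, pd_mem_A hw.nd, pd_mem_B hw.nd]
  apply wcas hw
  rw [sc_mem_A hw.nd, sc_mem_B hw.nd]
  exact ha

theorem pd_eqA {s t : St Ω} (hw : WF p s) (hw' : WF p t) (h : t.1 = s.1) {a : Ω} (ha : a ∈ s.1) : pd t a = pd s a := by
  have h1 : pd s a ∈ s.1 := (pd_mem_A hw.nd).2 ha
  apply pd_of_sc
  rw [sc_A hw'.nd (by rw [h]; exact h1), h, ← sc_A hw.nd h1, sc_pd]

theorem sc_ne_self {s : St Ω} (hw : WF p s) {a b : Ω} (ha : a ∈ s.1) (hb : b ∈ s.1) (hne : a ≠ b) : sc s a ≠ a := by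
  rw [sc_A hw.nd ha]
  rw [(List.formPerm_apply_mem_ne_self_iff _ ((List.nodup_append.1 hw.nd).1) _ ha)]
  by_contra hlt
  have h1 : s.1.length ≤ 1 := by omega
  match hs : s.1, h1 with
  | [], _ => rw [hs] at ha; simp at ha
  | [c], _ =>
    rw [hs] at ha hb
    simp only [List.mem_singleton] at ha hb
    exact hne (ha.trans hb.symm)

theorem BI.mixA (h : BI p s x f S) {q : Ω} (hq : q ∈ s.1) (h1 : q ≠ x) (h2 : q ≠ p x) : MA p s q := by
  refine ⟨hq, ?_⟩
  rcases wcas h.wf (Or.inl hq) with h3 | h3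
  · exact absurd (h.only q ⟨hq, h3⟩) (by tauto)
  · exact h3

/-- a token of `S` with a mixed `mu`. -/
theorem BI.choose (h : BI p s x f S) (hS : 48 ≤ S.card) (L : List Ω) (hL : L.length ≤ 10) :
    ∃ w ∈ S, w ≠ f ∧ MA p s (mu p s w) ∧ w ∉ L := by
  obtain ⟨w, w1, w2⟩ := exists_mem_not S (f :: mu p s x :: mu p s (p x) :: L) (by simp; omega)
  simp only [List.mem_cons, not_or] at w2
  obtain ⟨w3, w4, w5, w6⟩ := w2
  refine ⟨w, w1, w3, h.mixA (h.muA w1) ?_ ?_, w6⟩
  · intro e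
    exact w4 (by rw [← e, mu_mu h.wf.inv])
  · intro e
    exact w5 (by rw [← e, mu_mu h.wf.inv])

/-- the occupant of an edge `AA` is the red letter. -/
theorem BI.red_sc (h : BI p s x f S) {u : Ω} (hu : u ∈ s.1) (hm : mu p s u ∈ s.1) : sc s u = x ∨ sc s u = p x := by
  apply h.only
  rw [mu_eq_pd, pd_mem_A h.wf.nd] at hm
  exact ⟨(sc_mem_A h.wf.nd).2 hu, hm⟩

/-- distance `0`. -/
theorem BI.zero (att : Att p) (kbf : KBF_stmt) (h : BI p s x f S) (hS : 48 ≤ S.card) (hR : ¬ RR (cA p s) (cB p s)) {g : Ω}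
    (hg : TG p f s g) (hm : mu p s (p g) ∈ s.1) : Drop p 3 s := by
  have hpp := h.wf.inv
  obtain ⟨hg1, hg2⟩ := hg
  set v := sc s g with hv
  have hvS : v ∈ S := (h.blu v).2 hg1
  have hpd : pd s v = g := by rw [hv, pd_sc]
  have hgm : MB p s g := by
    have := h.iso v hvS
    rwa [hpd] at this
  have hu : MA p s (p g) := ⟨hgm.2, by rw [hpp]; exact hgm.1⟩
  have hz := h.red_sc hu.1 hm
  set z := sc s (p g) with hzd
  have hzu : pd s z = p g := by rw [hzd, pd_sc]
  obtain ⟨w, w1, w2, w3, w4⟩ := h.choose hS [v, p v] (by simp)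
  simp only [List.mem_cons, List.not_mem_nil, or_false, not_or] at w4
  have hbw := (h.blu w).1 w1
  have hqu : mu p s w ≠ p g := by
    intro e
    have : w = mu p s (p g) := by rw [← e, mu_mu hpp]
    rw [← this] at hm
    exact wdj h.wf hm hbw.1
  have hwu : pd s w ≠ p (p g) := by
    rw [hpp, ← hpd]
    exact fun e => w4.1 (pd_inj s e)
  obtain ⟨t, h1, h2, h3, h4, h5, h6, h7, h8, h9, h10, h11, h12, h13, h14, h15⟩ :=
    h.step0 att hR hz hzu hu w1 w2 w3 hqu hwu
  rw [hpp] at h10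
  have vw : v ≠ w := fun e => w4.1 e.symm
  have vpw : v ≠ p w := fun e => w4.2 (by rw [e, hpp])
  have e1 : pd t v = g := by rw [h12 v hvS vw vpw, hpd]
  have hbv : Blu p t v := (h5 v).2 (Or.inl ⟨hvS, vw, vpw⟩)
  have hdrop := kbf Ω p t x g v h2 h3 ((h5 g).2 (Or.inr (Or.inr (hpp g).symm))) hbv
    (by
      rintro e
      have := h.pS hvS
      rw [e, hpp] at this
      exact wdj h.wf hgm.2 (by have := ((h.blu _).1 hvS).1; rw [e] at this; exact this))
    (by
      rw [h14]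
      intro e
      have e2 : f = g := Option.some.inj e
      have e3 := sc_last h.wf h.last
      have e4 := h.hd _ e3
      rw [e2, ← hv] at e4
      exact wdj h.wf e4.2 hg1.2)
    (by rw [← e1, sc_pd])
    (by rw [h14]; exact fun e => hg2 (Option.some.inj e).symm)
    (by
      have b1 : p v ∈ t.2 := hbv.2
      have b2 : sc t (p v) ∈ t.2 := (sc_mem_B h2.nd).2 b1
      refine ⟨b2, ?_⟩
      rcases wcas h2 (Or.inr b2) with b3 | b3
      · exact b3
      exfalso
      have b4 : pd t (sc t (p v)) = p v := pd_sc t _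
      have b5 : ∀ a ∈ S, pd s a ≠ p v := by
        intro a ha e
        have := h.iso a ha
        rw [e] at this
        have b6 := this.2
        rw [hpp] at b6
        exact wdj h.wf b6 hg1.1
      rcases (h5 _).1 ⟨b2, b3⟩ with ⟨c1, c2, c3⟩ | c1 | c1
      · rw [h12 _ c1 c2 c3] at b4
        exact b5 _ c1 b4
      · rw [c1, h11] at b4
        exact b5 _ (h.pS w1) b4
      · rw [c1, hpp, h10] at b4
        exact b5 _ w1 b4)
  exact (Drop.pre h1 h15 hdrop)

end

end NA
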