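import Pool.Agent.helper3.NA.BWK

/-!
# MP_c8d30a, (A), section 9: the blue walk, main induction
-/

set_option autoImplicit false

namespace NA

open NTH NAW

section

variable {Ω : Type} [DecidableEq Ω] {p : Ω → Ω} {s : St Ω} {x f : Ω} {S : Finset Ω}

/-- the core can be assumed not to be run-reversed. -/
theorem BI.unrr (unb : UNB_stmt) (h : BI p s x f S) (hS : 48 ≤ S.card) :
    ∃ t, Pa p 4 s t ∧ BI p t x f S ∧ t.1 = s.1 ∧ t.2.Perm s.2 ∧ mu p t = mu p s ∧ (∀ g, TG p f s g → TG p f t g) ∧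
      ¬ RR (cA p t) (cB p t) ∧ mx p t = mx p s := by
  by_cases hR : RR (cA p s) (cB p s)
  swap
  · exact ⟨s, .refl _ _, h, rfl, List.Perm.refl _, rfl, fun _ hg => hg, hR, rfl⟩
  have hpp := h.wf.inv
  have hcard : 38 ≤ ((S.erase f).erase (p f)).card := by
    have h1 : (S.erase f).card ≥ S.card - 1 := Finset.pred_card_le_card_erase
    have h2 : ((S.erase f).erase (p f)).card ≥ (S.erase f).card - 1 := Finset.pred_card_le_card_erase
    omega
  obtain ⟨t, h1, h2, h3, h4, h5, h6, h7⟩ := unb Ω p s x f ((S.erase f).erase (p f)) h.wf h.red (by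
    intro v hv
    rw [Finset.mem_erase, Finset.mem_erase] at hv
    obtain ⟨v1, v2, v3⟩ := hv
    have hb := (h.blu v).1 v3
    refine ⟨hb, ?_, h.iso v v3, ?_⟩
    · rw [Finset.mem_erase, Finset.mem_erase]
      refine ⟨?_, ?_, h.pS v3⟩
      · intro e
        exact v2 (by rw [← hpp v, e, hpp])
      · intro e
        exact v1 (by rw [← e, hpp])
    · have b1 : sc s v ∈ s.2 := (sc_mem_B h.wf.nd).2 hb.1
      refine ⟨b1, ?_⟩
      rcases wcas h.wf (Or.inr b1) with b2 | b2
      · exact b2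
      exfalso
      have b3 := h.iso _ ((h.blu _).2 ⟨b1, b2⟩)
      rw [pd_sc] at b3
      exact wdj h.wf b3.2 hb.2) h.last (by
    rw [Finset.mem_erase, Finset.mem_erase]
    tauto) h.hd hcard hR
  have hw := h1.wf h.wf
  have hmu := h1.mu hpp h.wf.nd
  have hblu : ∀ v, Blu p t v ↔ Blu p s v := by
    intro v
    unfold Blu
    rw [h3.mem_iff, h3.mem_iff]
  have hmb : ∀ v, MB p t v ↔ MB p s v := by
    intro v
    unfold MB
    rw [h3.mem_iff, h2]
  have hpdf : ∀ v, Blu p s v → (v = f ∨ v = p f) → pd t v = pd s v := by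
    intro v hv hvf
    apply h5 v hv
    rw [Finset.mem_erase, Finset.mem_erase]
    tauto
  refine ⟨t, h1, ⟨hw, ?_, ?_, ?_, ?_, h7, by rw [h1.last]; exact h.last⟩, h2, h3, hmu, ?_, h4, ?_⟩
  · unfold Red
    rw [h2]
    exact h.red
  · intro v hv
    unfold Red at hv
    rw [h2] at hv
    exact h.only v hv
  · intro v
    rw [hblu, h.blu]
  · intro v hv
    by_cases hvf : v = f ∨ v = p f
    · rw [hpdf v ((h.blu v).1 hv) hvf, hmb]
      exact h.iso v hv
    · apply h6
      rw [Finset.mem_erase, Finset.mem_erase]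
      tauto
  · rintro g ⟨g1, g2⟩
    have b0 : g ∈ s.2 := by
      rw [← sc_mem_B h.wf.nd]
      exact g1.1
    have b1 : mu p t g ∈ s.2 := by
      rw [hmu, mu_eq_pd, pd_mem_B h.wf.nd]
      exact g1.2
    have b2 : Blu p t (sc t g) := by
      refine ⟨(sc_mem_B hw.nd).2 (h3.mem_iff.2 b0), ?_⟩
      rw [← pd_mem_B hw.nd, ← mu_eq_pd]
      exact h3.mem_iff.2 b1
    refine ⟨b2, fun e => g2 ?_⟩
    have e2 : sc t g = p f := by rw [← e, hpp]
    rw [e2] at b2
    have e3 := hpdf (p f) ((hblu _).1 b2) (Or.inr rfl)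
    have e4 : pd s (p f) = g := by rw [← e3, ← e2, pd_sc]
    rw [← e4, sc_pd, hpp]
  · unfold mx
    rw [h2]
    refine List.countP_congr ?_
    intro v _
    rw [decide_eq_true_eq, decide_eq_true_eq, h3.mem_iff]

/-- `x` and `p x` are not adjacent. -/
theorem BI.nad (h : BI p s x f S) (hn : Nad p s x) : MA p s (pd s x) ∧ MA p s (pd s (p x)) := by
  have hpp := h.wf.inv
  constructor
  · refine h.mixA ((pd_mem_A h.wf.nd).2 h.red.1) ?_ ?_
    · intro e
      exact sc_ne_self h.wf h.red.1 h.red.2 (h.wf.ne x).symm (by conv_lhs => rw [← e, sc_pd])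
    · intro e
      exact hn.2 (by rw [← e, sc_pd])
  · refine h.mixA ((pd_mem_A h.wf.nd).2 h.red.2) ?_ ?_
    · intro e
      exact hn.1 (by conv_lhs => rw [← e, sc_pd])
    · intro e
      exact sc_ne_self h.wf h.red.2 h.red.1 (h.wf.ne x) (by conv_lhs => rw [← e, sc_pd])

/-- phase 0. -/
theorem BI.phase0 (att : Att p) (kbf : KBF_stmt) (h : BI p s x f S) (hS : 48 ≤ S.card) (hR : ¬ RR (cA p s) (cB p s))
    (hn : ¬ Nad p s x) (hf : MB p s f) :
    Drop p 3 s ∨ ∃ (t : St Ω) (S' : Finset Ω), Pa p 1 s t ∧ BI p t x f S' ∧ S'.card = S.card ∧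
      MA p t (pd t x) ∧ MA p t (pd t (p x)) ∧ mx p t = mx p s := by
  have hpp := h.wf.inv
  obtain ⟨z, hz, hzz⟩ : ∃ z, (z = x ∨ z = p x) ∧ sc s z = p z := by
    unfold Nad at hn
    by_cases h1 : sc s x = p x
    · exact ⟨x, Or.inl rfl, h1⟩
    · refine ⟨p x, Or.inr rfl, ?_⟩
      rw [hpp]
      by_contra h2
      exact hn ⟨h1, h2⟩
  have hred := h.redz hz
  have hzne := h.wf.ne z
  -- the predecessor of `z`
  have hu : MA p s (pd s z) := by
    have hu1 : pd s z ∈ s.1 := (pd_mem_A h.wf.nd).2 hred.1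
    refine ⟨hu1, ?_⟩
    rcases wcas h.wf (Or.inl hu1) with h3 | h3
    swap
    · exact h3
    exfalso
    have h4 := h.only _ ⟨hu1, h3⟩
    have h5 : pd s z = z ∨ pd s z = p z := by
      rcases hz with rfl | rfl
      · exact h4
      · rw [hpp]
        tauto
    rcases h5 with h5 | h5
    · exact sc_ne_self h.wf hred.1 hred.2 hzne.symm (by conv_lhs => rw [← h5, sc_pd])
    · -- `A` consists of `z` and `p z`
      have h6 : sc s (p z) = z := by rw [← h5, sc_pd]
      obtain ⟨w, w1, w2⟩ := exists_mem_not S [] (by rw [List.length_nil]; omega)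
      have h7 := (h.iso w w1).2
      obtain ⟨l', hl⟩ := exists_rot (b := p z) (List.nodup_append.1 h.wf.nd).1 hred.1
        (by rw [← hzz]; exact (sc_A h.wf.nd hred.1).symm) (h.wf.ne z)
      have hnd := hl.nodup_iff.1 (List.nodup_append.1 h.wf.nd).1
      cases hl' : l' with
      | nil =>
        rw [hl'] at hl
        have h8 := hl.perm.mem_iff.1 h7
        simp only [List.mem_cons, List.not_mem_nil, or_false] at h8
        have h9 := (h.iso w w1).1
        rcases h8 with h8 | h8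
        · apply wdj h.wf hred.2
          rw [← h8, hpp]
          exact h9
        · apply wdj h.wf hred.1
          have : pd s w = z := by rw [← hpp (pd s w), h8, hpp]
          rw [← this]
          exact h9
      | cons b l =>
        rw [hl'] at hl hnd
        have h8 : sc s (p z) = b := by
          rw [sc_A h.wf.nd hred.2, List.formPerm_eq_of_isRotated (List.nodup_append.1 h.wf.nd).1 hl]
          exact formPerm_adj (A1 := [z]) hnd
        rw [h6] at h8
        rw [← h8] at hnd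
        simp at hnd
  have hmu : mu p s (pd s z) = z := by
    rw [mu_pd, ← hzz, pd_sc]
  by_cases hend : TG p f s (p (pd s z))
  · left
    exact h.zero att kbf hS hR hend (by rw [hpp, hmu]; exact hred.1)
  right
  have hend' : ∀ v ∈ S, pd s v ≠ p (pd s z) := by
    intro v hv e
    apply hend
    have e2 : sc s (p (pd s z)) = v := by rw [← e, sc_pd]
    refine ⟨by rw [e2]; exact (h.blu v).1 hv, ?_⟩
    rw [e2]
    rintro rfl
    have e3 := hf.2
    exact wdj h.wf e3 (by rw [hpp]; exact ((h.blu _).1 hv).1)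
  obtain ⟨w, w1, w2, w3, -⟩ := h.choose hS [] (by simp)
  obtain ⟨t, S', h1, h2, h3, h4, h5, -, -, h6⟩ := h.step att hR hz rfl hu w1 w2 w3 (by
    intro e
    have e2 : w = z := by rw [← hmu, ← e, mu_mu hpp]
    rw [e2] at w1
    exact wdj h.wf hred.1 ((h.blu _).1 w1).1) hend'
  exact ⟨t, S', h1, h2, h3, h4, h5, h6⟩

/-- a target with a finite distance. -/
theorem BI.target (h : BI p s x f S) (hS : 48 ≤ S.card) :
    ∃ (g e : Ω) (n : ℕ), TG p f s g ∧ n ≤ 2 * (s.1 ++ s.2).length + 1 ∧ Dl p (mu p s) (· ∈ s.1) f n (p g) e := by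
  have hpp := h.wf.inv
  obtain ⟨v, v1, v2⟩ := exists_mem_not S [p f] (by simp; omega)
  obtain ⟨v', v1', v2'⟩ := exists_mem_not S [p f, v] (by simp; omega)
  simp only [List.mem_cons, List.not_mem_nil, or_false, not_or] at v2 v2'
  have key : ∀ v ∈ S, v ≠ p f → TG p f s (pd s v) ∧ p (pd s v) ∈ s.1 ∧ mu p s (p (p (pd s v))) ∉ s.1 := by
    intro v hv hvf
    refine ⟨⟨by rw [sc_pd]; exact (h.blu v).1 hv, ?_⟩, (h.iso v hv).2, ?_⟩
    · rw [sc_pd]
      intro e
      exact hvf (by rw [← e, hpp])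
    · rw [hpp, mu_pd]
      intro e
      exact wdj h.wf ((pd_mem_A h.wf.nd).1 e) ((h.blu v).1 hv).2
  obtain ⟨k1, k2, k3⟩ := key v v1 v2
  obtain ⟨k1', k2', k3'⟩ := key v' v1' v2'.1
  have hne : p (pd s v) ≠ p (pd s v') := by
    intro e
    exact v2'.2 (pd_inj s (by rw [← hpp (pd s v'), ← e, hpp])).symm.symm
  have hT : ∀ t ∈ (s.1 ++ s.2).toFinset, p t ∈ (s.1 ++ s.2).toFinset ∧ mu p s t ∈ (s.1 ++ s.2).toFinset := by
    intro t ht
    rw [List.mem_toFinset, List.mem_append] at ht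
    rw [List.mem_toFinset, List.mem_toFinset, List.mem_append, List.mem_append]
    exact ⟨wcas h.wf ht, mu_mem h.wf ht⟩
  obtain ⟨n, hn, e, he⟩ := NA.DLX p (mu p s) (· ∈ s.1) f (s.1 ++ s.2).toFinset hpp (mu_mu hpp s) hT
    (p (pd s v)) (by rw [List.mem_toFinset, List.mem_append]; exact Or.inl k2)
    (p (pd s v')) (by rw [List.mem_toFinset, List.mem_append]; exact Or.inl k2') hne k2 k2' (Or.inr k3) (Or.inr k3')
  have hc := (s.1 ++ s.2).toFinset_card_le
  rcases he with he | he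
  · exact ⟨pd s v, e, n, k1, by omega, he⟩
  · exact ⟨pd s v', e, n, k1', by omega, he⟩

/-- the odd distances of the function, the path ends with a blue token. -/
theorem BI.odd (att : Att p) (h : BI p s x f S) (hR : ¬ RR (cA p s) (cB p s))
    (ha1 : MA p s (pd s x)) (ha2 : MA p s (pd s (p x))) {g w : Ω} {k : ℕ} (hg : TG p f s g)
    (hd : Dl p (mu p s) (· ∈ s.1) f (2 * k + 1) (p g) w)
    (hmin : ∀ g' w', TG p f s g' → ¬ Dl p (mu p s) (· ∈ s.1) f 0 (p g') w') :
    ∃ (t : St Ω) (S' : Finset Ω) (e' : Ω), Pa p 1 s t ∧ BI p t x f S' ∧ S'.card = S.card ∧ MA p t (pd t x) ∧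
      MA p t (pd t (p x)) ∧ TG p f t g ∧ Dl p (mu p t) (· ∈ t.1) f (2 * k) (p g) e' ∧ mx p t = mx p s := by
  have hpp := h.wf.inv
  have hmm := mu_mu hpp s
  have hgm : MB p s g := by
    have := h.iso _ ((h.blu _).2 hg.1)
    rwa [pd_sc] at this
  obtain ⟨w1, w2, w3, w4⟩ := hd.odd hmm hgm.2
  have wS : w ∈ S := by
    have b1 : w ∈ s.1 ∨ w ∈ s.2 := by
      rw [← hmm w]
      exact mu_mem h.wf (Or.inl w4)
    have b2 := wcas h.wf b1
    exact (h.blu w).2 ⟨by tauto, by tauto⟩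
  -- `mu w` is mixed
  have hq : MA p s (mu p s w) := by
    refine ⟨w4, ?_⟩
    have key : ∀ (k : ℕ) (t w : Ω), Dl p (mu p s) (· ∈ s.1) f (2 * k + 1) t w → p t ∉ s.1 → p (mu p s w) ∉ s.1 := by
      intro k
      induction k with
      | zero =>
        intro t w hd ht
        cases hd with
        | one _ _ _ _ =>
          rw [hmm]
          exact ht
      | succ k ih =>
        intro t w hd _
        rw [show 2 * (k + 1) + 1 = (2 * k + 1) + 2 by ring] at hd
        cases hd with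
        | step _ _ _ _ d1 _ d3 =>
          exact ih _ _ d3 (by rw [hpp]; exact d1)
    have := key k (p g) w hd (by rw [hpp]; exact fun e => wdj h.wf e hgm.1)
    rcases wcas h.wf (Or.inl w4) with b | b
    · exact absurd b this
    · exact b
  -- the choice of the token of `x`
  have hmuz : ∀ z, (z = x ∨ z = p x) → mu p s (pd s z) ∈ s.1 := by
    intro z hz
    rw [mu_pd, pd_mem_A h.wf.nd]
    exact (h.redz hz).2
  have hpd : ∀ z, (z = x ∨ z = p x) → MA p s (pd s z) := by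
    rintro z (rfl | rfl)
    · exact ha1
    · exact ha2
  have hbad : ∀ z, (z = x ∨ z = p x) → (∃ v ∈ S, pd s v = p (pd s z)) → sc s (p (pd s z)) = p f ∧ p f ∈ S := by
    rintro z hz ⟨v, hv, e⟩
    have e2 : sc s (p (pd s z)) = v := by rw [← e, sc_pd]
    by_cases hvf : v = p f
    · rw [e2]
      exact ⟨hvf, hvf ▸ hv⟩
    exfalso
    apply hmin (p (pd s z)) (pd s z) ⟨by rw [e2]; exact (h.blu v).1 hv, fun e3 => hvf (by rw [← e3, e2, hpp])⟩
    rw [hpp]
    refine .zero _ ?_ (hmuz z hz)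
    rintro e4
    have := hmuz z hz
    rw [e4] at this
    exact wdj h.wf this (List.mem_of_getLast? h.last)
  obtain ⟨z, hz, hz1, hz2⟩ : ∃ z, (z = x ∨ z = p x) ∧ p (pd s z) ≠ f ∧ ∀ v ∈ S, pd s v ≠ p (pd s z) := by
    by_contra hc
    push Not at hc
    have c1 := hc x (Or.inl rfl)
    have c2 := hc (p x) (Or.inr rfl)
    have pdne : p (pd s x) ≠ p (pd s (p x)) := by
      intro e
      have := pd_inj s (a := x) (b := p x) (by rw [← hpp (pd s x), e, hpp])
      exact h.wf.ne x this.symm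
    by_cases d1 : p (pd s x) = f
    · by_cases d2 : p (pd s (p x)) = f
      · exact pdne (d1.trans d2.symm)
      · obtain ⟨e1, e2⟩ := hbad (p x) (Or.inr rfl) (c2 d2)
        have e3 := ha1.1
        have e4 : p f = pd s x := by rw [← d1, hpp]
        rw [e4] at e2
        exact wdj h.wf e3 ((h.blu _).1 e2).1
    · obtain ⟨e1, e2⟩ := hbad x (Or.inl rfl) (c1 d1)
      by_cases d2 : p (pd s (p x)) = f
      · have e3 := ha2.1
        have e4 : p f = pd s (p x) := by rw [← d2, hpp]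
        rw [e4] at e2
        exact wdj h.wf e3 ((h.blu _).1 e2).1
      · obtain ⟨e3, -⟩ := hbad (p x) (Or.inr rfl) (c2 d2)
        exact pdne ((sc s).injective (e1.trans e3.symm))
  have hqu : mu p s w ≠ pd s z := by
    intro e
    have := hmuz z hz
    rw [← e, hmm] at this
    exact wdj h.wf this ((h.blu _).1 wS).1
  obtain ⟨t, S', h1, h2, h3, h4, h5, h6, h7, h8⟩ := h.step att hR hz rfl (hpd z hz) wS w1 hq hqu hz2
  refine ⟨t, S', mu p s w, h1, h2, h3, h4, h5, h7 hz1 g hg, ?_, h8⟩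
  rw [h1.mu hpp h.wf.nd]
  exact (hd.upd_odd (u := pd s z) hmm (hmuz z hz) w3).congr (fun a => h6 a)

/-- even distances. -/
theorem BI.even (att : Att p) (h : BI p s x f S) (hS : 48 ≤ S.card) (hR : ¬ RR (cA p s) (cB p s))
    {g u : Ω} {k : ℕ} (hg : TG p f s g)
    (hd : Dl p (mu p s) (· ∈ s.1) f (2 * (k + 1)) (p g) u) :
    ∃ (t : St Ω) (S' : Finset Ω) (e' : Ω), Pa p 1 s t ∧ BI p t x f S' ∧ S'.card = S.card ∧ MA p t (pd t x) ∧
      MA p t (pd t (p x)) ∧ TG p f t g ∧ Dl p (mu p t) (· ∈ t.1) f (2 * k + 1) (p g) e' ∧ mx p t = mx p s := by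
  have hpp := h.wf.inv
  have hmm := mu_mu hpp s
  have hgm : MB p s g := by
    have := h.iso _ ((h.blu _).2 hg.1)
    rwa [pd_sc] at this
  obtain ⟨u1, u2⟩ := hd.even hgm.2
  obtain ⟨u3, u4, u5⟩ := hd.even' hpp hmm hgm.2
  have hu : MA p s u := by
    refine ⟨u1, ?_⟩
    rcases wcas h.wf (Or.inl u1) with b | b
    · exact absurd b u4
    · exact b
  have hz := h.red_sc u1 u2
  have hzu : pd s (sc s u) = u := pd_sc s u
  have hend : ∀ v ∈ S, pd s v ≠ p u := by
    intro v hv e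
    rw [← e, mu_pd, pd_mem_A h.wf.nd] at u5
    exact wdj h.wf u5 ((h.blu v).1 hv).2
  obtain ⟨w, w1, w2, w3, -⟩ := h.choose hS [] (by simp)
  have hbw := (h.blu w).1 w1
  have hqu : mu p s w ≠ u := by
    intro e
    rw [← e, hmm] at u2
    exact wdj h.wf u2 hbw.1
  obtain ⟨t, S', h1, h2, h3, h4, h5, h6, h7, h8⟩ := h.step att hR hz hzu hu w1 w2 w3 hqu hend
  refine ⟨t, S', p u, h1, h2, h3, h4, h5, h7 u3 g hg, ?_, h8⟩
  rw [h1.mu hpp h.wf.nd]
  exact (hd.upd_even (w := w) hpp u2 (fun e => wdj h.wf e hbw.1) (fun e => wdj h.wf e hbw.2)).congr (fun a => h6 a)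

/-- the walk. -/
theorem BI.walk (att : Att p) (unb : UNB_stmt) (kbf : KBF_stmt) (n : ℕ) : ∀ (s : St Ω) (S : Finset Ω) (g e : Ω),
    BI p s x f S → 48 ≤ S.card → MA p s (pd s x) → MA p s (pd s (p x)) → TG p f s g →
    Dl p (mu p s) (· ∈ s.1) f n (p g) e → Drop p (5 * n + 7) s := by
  induction n using Nat.strong_induction_on with
  | _ n ih =>
  intro s0 S g e h0 hS ha1 ha2 hg hd
  obtain ⟨s, p1, h, p2, p3, p4, p5, hR, p7⟩ := h0.unrr unb hS
  have hmb : ∀ v, MA p s v ↔ MA p s0 v := by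
    intro v
    unfold MA
    rw [p3.mem_iff, p2]
  have ha1' : MA p s (pd s x) := by
    rw [pd_eqA h0.wf h.wf p2 h0.red.1, hmb]
    exact ha1
  have ha2' : MA p s (pd s (p x)) := by
    rw [pd_eqA h0.wf h.wf p2 h0.red.2, hmb]
    exact ha2
  have hg' := p5 g hg
  have hd' : Dl p (mu p s) (· ∈ s.1) f n (p g) e := by
    rw [p4]
    exact hd.congr (fun a => by rw [p2])
  by_cases hmin : ∃ j < n, ∃ g' e', TG p f s g' ∧ Dl p (mu p s) (· ∈ s.1) f j (p g') e'
  · obtain ⟨j, hj, g', e', g1, g2⟩ := hmin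
    exact (Drop.pre p1 p7 (ih j hj s S g' e' h hS ha1' ha2' g1 g2)).up (by omega)
  push Not at hmin
  rcases Nat.even_or_odd' n with ⟨k, rfl | rfl⟩
  · cases k with
    | zero =>
      cases hd' with
      | zero _ _ d1 => exact (Drop.pre p1 p7 (h.zero att kbf hS hR hg' d1)).up (by omega)
    | succ k =>
      obtain ⟨t, S', e', h1, h2, h3, h4, h5, h6, h7, h8⟩ := h.even att hS hR hg' hd'
      have := ih (2 * k + 1) (by omega) t S' g e' h2 (by omega) h4 h5 h6 h7
      exact (Drop.pre p1 p7 (Drop.pre h1 h8 this)).up (by omega)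
  · obtain ⟨t, S', e', h1, h2, h3, h4, h5, h6, h7, h8⟩ := h.odd att hR ha1' ha2' hg' hd'
      (fun g' w' hg'' => hmin 0 (by omega) g' w' hg'')
    have := ih (2 * k) (by omega) t S' g e' h2 (by omega) h4 h5 h6 h7
    exact (Drop.pre p1 p7 (Drop.pre h1 h8 this)).up (by omega)

end

end NA

namespace NAW

open NTH NA

/-- THE BLUE WALK. -/
theorem BWK (att : ∀ (Ω : Type) [DecidableEq Ω] (p : Ω → Ω), Att p) (unb : UNB_stmt) (kbf : KBF_stmt) : BWK_stmt := by
  intro Ω _ p s x f S h hS hf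
  obtain ⟨s1, p1, h1, p2, p3, p4, p5, hR, p7⟩ := h.unrr unb hS
  have hf1 : MB p s1 f := by
    refine ⟨p3.mem_iff.2 hf.1, ?_⟩
    rw [p2]
    exact hf.2
  have hlen : (s1.1 ++ s1.2).length = (s.1 ++ s.2).length := p1.perm.length_eq.symm
  have main : ∀ (t : St Ω) (S' : Finset Ω), BI p t x f S' → 48 ≤ S'.card → MA p t (pd t x) → MA p t (pd t (p x)) →
      Drop p (10 * (t.1 ++ t.2).length + 12) t := by
    intro t S' h2 h3 h4 h5
    obtain ⟨g, e, n, g1, g2, g3⟩ := h2.target h3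
    exact (BI.walk (att Ω p) unb kbf n t S' g e h2 h3 h4 h5 g1 g3).up (by omega)
  by_cases hn : Nad p s1 x
  · obtain ⟨a1, a2⟩ := h1.nad hn
    exact (Drop.pre p1 p7 (main s1 S h1 hS a1 a2)).up (by omega)
  rcases h1.phase0 (att Ω p) kbf hS hR hn hf1 with h2 | ⟨t, S', t1, t2, t3, t4, t5, t6⟩
  · exact (Drop.pre p1 p7 h2).up (by omega)
  · have hlen2 : (t.1 ++ t.2).length = (s1.1 ++ s1.2).length := t1.perm.length_eq.symm
    exact (Drop.pre p1 p7 (Drop.pre t1 t6 (main t S' t2 (by omega) t4 t5))).up (by omega)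

end NAW
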