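import Pool.Agent.helper3.NA.StepH

/-!
# MP_c8d30a, (A), section 7: the step `H` (with the attaching as hypothesis `Att`)
-/

set_option autoImplicit false

namespace NA

open NTH Equiv Equiv.Perm

universe u
variable {Ω : Type u} {p : Ω → Ω}

/-- the first token of `B` stays mixed under the swaps. -/
theorem EM.hd0 {s t : St Ω} (h : EM p 0 s t) (hw : WF p s) (hh : ∀ v, s.2.head? = some v → MB p s v) :
    ∀ v, t.2.head? = some v → MB p t v := by
  have hz := h.zero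
  have key : ∀ v, MB p s v → MB p t v := fun v hv => ⟨hz.2.mem_iff.1 hv.1, hz.1.mem_iff.1 hv.2⟩
  cases h with
  | rot A A' B h => exact fun v hv => key v (hh v hv)
  | cm x y z P Q R I P' Q' R' =>
    intro v hv
    cases I with
    | nil =>
      obtain rfl : p y = v := by simpa using hv
      refine ⟨by simp, ?_⟩
      simp [hw.inv]
    | cons i I =>
      obtain rfl : i = v := by simpa using hv
      exact key i (hh i (by simp))

theorem Pa.hd0 {n : ℕ} {s t : St Ω} (h : Pa p n s t) (hn : n = 0) (hw : WF p s)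
    (hh : ∀ v, s.2.head? = some v → MB p s v) : ∀ v, t.2.head? = some v → MB p t v := by
  induction h with
  | refl _ _ => exact hh
  | @head k n s t v h _ ih =>
    obtain rfl : k = 0 := by omega
    exact ih (by omega) (h.wf hw) (h.hd0 hw hh)

theorem Pa.red0 {s t : St Ω} (h : Pa p 0 s t) (v : Ω) : Red p t v ↔ Red p s v := by
  have hz := h.zero rfl
  unfold Red
  rw [hz.1.mem_iff, hz.1.mem_iff]

theorem Pa.blu0 {s t : St Ω} (h : Pa p 0 s t) (v : Ω) : Blu p t v ↔ Blu p s v := by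
  have hz := h.zero rfl
  unfold Blu
  rw [hz.2.mem_iff, hz.2.mem_iff]

theorem Pa.MA0 {s t : St Ω} (h : Pa p 0 s t) (v : Ω) : MA p t v ↔ MA p s v := by
  have hz := h.zero rfl
  unfold MA
  rw [hz.1.mem_iff, hz.2.mem_iff]

theorem Pa.MB0 {s t : St Ω} (h : Pa p 0 s t) (v : Ω) : MB p t v ↔ MB p s v := by
  have hz := h.zero rfl
  unfold MB
  rw [hz.1.mem_iff, hz.2.mem_iff]

section dec

variable [DecidableEq Ω]

/-- the attaching (section 6). -/
def Att (p : Ω → Ω) : Prop := ∀ (s : St Ω) (q y u : Ω), WF p s → ¬ RR (cA p s) (cB p s) → q ∈ s.1 → y ∈ s.2 →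
  mu p s y = q → MB p s (sc s y) → MA p s u → ¬ Gnd p s q u → ¬ Gnd p s y (p u) →
  ∃ t, Pa p 0 s t ∧ sc t q = u ∧ sc t y = p u

/-- if `mu y` is in `A`, the edge of `y` has a mixed occupant. -/
theorem mb_sc {s : St Ω} (hw : WF p s) {y : Ω} (hy : y ∈ s.2) (hq : mu p s y ∈ s.1) : MB p s (sc s y) := by
  refine ⟨(sc_mem_B hw.nd).2 hy, ?_⟩
  rw [mu_eq_pd, pd_mem_A hw.nd] at hq
  exact hq

/-- the step `H`. -/
theorem stepH (att : Att p) {s : St Ω} (hw : WF p s) {z y : Ω} (hz : Red p s z) (hu : MA p s (pd s z))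
    (hy : Blu p s y) (hq : mu p s y ∈ s.1) (hl : s.2.getLast? ≠ some y) (g1 : ¬ Gnd p s (mu p s y) (pd s z))
    (g2 : ¬ Gnd p s y (p (pd s z))) (hR : ¬ RR (cA p s) (cB p s)) :
    ∃ t, Pa p 1 s t ∧ t.1.Perm (y :: s.1.erase (pd s z)) ∧ t.2.Perm (pd s z :: s.2.erase y) ∧
      pd t z = mu p s y ∧ pd t (p z) = y ∧ pd t (p (pd s z)) = pd s y ∧ pd t (pd s z) = pd s (p y) ∧
      pd t (p y) = pd s z ∧
      (∀ v, Red p s v ∨ Blu p s v → v ≠ z → v ≠ p z → v ≠ y → v ≠ p y → pd t v = pd s v) ∧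
      ((∀ v, s.2.head? = some v → MB p s v) → ∀ v, t.2.head? = some v → MB p t v) := by
  obtain ⟨s', h1, h2, h3⟩ := att s _ y (pd s z) hw hR hq hy.1 rfl (mb_sc hw hy.1 hq) hu g1 g2
  have hw' := h1.wf hw
  have hzz := h1.zero rfl
  have pdz : pd s' z = pd s z := h1.pd0 rfl hw (Or.inl hz)
  have pdy : pd s' y = pd s y := h1.pd0 rfl hw (Or.inr hy)
  have pdpy : pd s' (p y) = pd s (p y) := h1.pd0 rfl hw (Or.inr ⟨hy.2, by rw [hw.inv]; exact hy.1⟩)
  obtain ⟨t, k1, k2, k3, k4, k5, k6, k7, k8, k9, k10, k11⟩ := stepH_core hw' (z := z) (u := pd s z) (y := y)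
    ((h1.red0 z).2 hz) ((h1.MA0 _).2 hu) ((h1.blu0 y).2 hy) (by rw [← pdz, sc_pd]) h3 (by rw [h1.last]; exact hl)
  refine ⟨t, h1.trans k1, ?_, ?_, ?_, k5, ?_, ?_, k8, ?_, ?_⟩
  · exact k2.trans ((hzz.1.symm.erase _).cons _)
  · exact k3.trans ((hzz.2.symm.erase _).cons _)
  · rw [k4]
    exact pd_of_sc h2
  · rw [k6, pdy]
  · rw [k7, pdpy]
  · intro v hv v1 v2 v3 v4
    have c1 : v ≠ pd s z := by
      rintro rfl
      rcases hv with hv | hv
      · exact (List.nodup_append.1 hw.nd).2.2 _ hv.2 _ hu.2 rfl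
      · exact (List.nodup_append.1 hw.nd).2.2 _ hu.1 _ hv.1 rfl
    have c2 : v ≠ p (pd s z) := by
      rintro rfl
      rcases hv with hv | hv
      · exact (List.nodup_append.1 hw.nd).2.2 _ hv.1 _ hu.2 rfl
      · have := hv.2
        rw [hw.inv] at this
        exact (List.nodup_append.1 hw.nd).2.2 _ hu.1 _ this rfl
    rw [k10 v v1 v2 c1 c2 v3 v4, h1.pd0 rfl hw hv]
  · intro hh
    exact k11 (h1.hd0 rfl hw hh)

/-- grounds. -/
theorem gnd_MA {s : St Ω} (hw : WF p s) {t g : Ω} (h : MA p s t) (hg : Gnd p s t g) : g = t := by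
  cases hg with
  | selfA _ _ => rfl
  | selfB _ _ => rfl
  | red _ _ h1 _ => exact absurd rfl ((List.nodup_append.1 hw.nd).2.2 _ h1.2 _ h.2)
  | blu _ _ h1 _ => exact absurd rfl ((List.nodup_append.1 hw.nd).2.2 _ h.1 _ h1.1)

theorem gnd_MB {s : St Ω} (hw : WF p s) {t g : Ω} (h : MB p s t) (hg : Gnd p s t g) : g = t := by
  cases hg with
  | selfA _ _ => rfl
  | selfB _ _ => rfl
  | red _ _ h1 _ => exact absurd rfl ((List.nodup_append.1 hw.nd).2.2 _ h1.1 _ h.1)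
  | blu _ _ h1 _ => exact absurd rfl ((List.nodup_append.1 hw.nd).2.2 _ h.2 _ h1.2)

theorem gnd_blu {s : St Ω} (hw : WF p s) {t g : Ω} (h : Blu p s t) (h' : MB p s (pd s t)) (hg : Gnd p s t g) :
    g = pd s t := by
  cases hg with
  | selfA _ h1 => exact absurd rfl ((List.nodup_append.1 hw.nd).2.2 _ h1.1 _ h.1)
  | selfB _ h1 => exact absurd rfl ((List.nodup_append.1 hw.nd).2.2 _ h1.2 _ h.2)
  | red _ _ h1 _ => exact absurd rfl ((List.nodup_append.1 hw.nd).2.2 _ h1.1 _ h.1)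
  | blu _ _ h1 h2 => exact gnd_MB hw h' h2

theorem gnd_red {s : St Ω} (hw : WF p s) {t g : Ω} (h : Red p s t) (h' : MA p s (pd s t)) (hg : Gnd p s t g) :
    g = pd s t := by
  cases hg with
  | selfA _ h1 => exact absurd rfl ((List.nodup_append.1 hw.nd).2.2 _ h.2 _ h1.2)
  | selfB _ h1 => exact absurd rfl ((List.nodup_append.1 hw.nd).2.2 _ h.1 _ h1.1)
  | red _ _ h1 h2 => exact gnd_MA hw h' h2
  | blu _ _ h1 h2 => exact absurd rfl ((List.nodup_append.1 hw.nd).2.2 _ h.1 _ h1.1)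

end dec

end NA
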