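import Pool.Agent.helper3.NA.Mu

/-!
# MP_c8d30a, (A), section 0 and 7: invariants of the moves
-/

set_option autoImplicit false

namespace NA

open NTH Equiv Equiv.Perm

universe u
variable {Ω : Type u} {p : Ω → Ω}

theorem EM.wf {k : ℕ} {s t : St Ω} (h : EM p k s t) (hw : WF p s) : WF p t := by
  refine ⟨h.perm.nodup_iff.1 hw.nd, fun o ho => ?_, hw.inv, hw.ne⟩
  exact h.perm.mem_iff.1 (hw.cl o (h.perm.mem_iff.2 ho))

theorem Pa.wf {n : ℕ} {s t : St Ω} (h : Pa p n s t) (hw : WF p s) : WF p t := by
  refine ⟨h.perm.nodup_iff.1 hw.nd, fun o ho => ?_, hw.inv, hw.ne⟩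
  exact h.perm.mem_iff.1 (hw.cl o (h.perm.mem_iff.2 ho))

theorem getLast?_tail (X Z : List Ω) (y : Ω) : (X ++ y :: Z).getLast? = (y :: Z).getLast? := by
  rw [List.getLast?_append, List.getLast?_cons]
  rfl

theorem getLast?_eq {B B' X X' Z : List Ω} {y : Ω} (h : B = X ++ y :: Z) (h' : B' = X' ++ y :: Z) :
    B'.getLast? = B.getLast? := by
  rw [h, h', getLast?_tail, getLast?_tail]

/-- the last token of `B` is kept. -/
theorem EM.last {k : ℕ} {s t : St Ω} (h : EM p k s t) : t.2.getLast? = s.2.getLast? := by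
  cases h with
  | rot A A' B h => rfl
  | cm x y z P Q R I P' Q' R' =>
    exact getLast?_eq (X := I ++ p x :: (P' ++ p y :: Q')) (X' := I ++ p y :: (Q' ++ p x :: P')) (y := p z) (Z := R')
      (by simp) (by simp)
  | th1 c x y P Q R D E G F =>
    exact getLast?_eq (X := D ++ p y :: (E ++ y :: G)) (X' := D ++ c :: (P ++ p y :: E)) (y := p c) (Z := F)
      (by simp) (by simp)
  | th2 c x y P Q R D E G F =>
    exact getLast?_eq (X := D ++ y :: (G ++ p c :: F)) (X' := D ++ p c :: (F ++ c :: P)) (y := p y) (Z := E)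
      (by simp) (by simp)

theorem Pa.last {n : ℕ} {s t : St Ω} (h : Pa p n s t) : t.2.getLast? = s.2.getLast? := by
  induction h with
  | refl _ _ => rfl
  | head h _ ih => rw [ih, h.last]

/-- a suffix of `X ++ y :: Z` is a suffix of `Z` or contains `y`. -/
theorem suffix_cases {B1 B2 X Z : List Ω} {y : Ω} (h : X ++ y :: Z = B1 ++ B2) :
    (∃ W, Z = W ++ B2) ∨ (∃ W, B2 = W ++ y :: Z ∧ X = B1 ++ W) := by
  rcases List.append_eq_append_iff.1 h with ⟨W, h1, h2⟩ | ⟨W, h1, h2⟩
  · -- B1 = X ++ W, y :: Z = W ++ B2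
    cases W with
    | nil =>
      right
      refine ⟨[], ?_, by simpa using h1.symm⟩
      simpa using h2.symm
    | cons w W =>
      left
      simp only [List.cons_append, List.cons.injEq] at h2
      exact ⟨W, h2.2⟩
  · right
    exact ⟨W, h2, h1⟩

/-- the blocks from a common tail. -/
theorem ir_of_tail {s t : St Ω} {X X' Z : List Ω} {y : Ω} (h1 : s.2 = X ++ y :: Z)
    (h2 : t.2 = X' ++ y :: Z) (hy : p y ∈ t.1) (hwt : WF p t) (h : IrB p s) : IrB p t := by
  intro B1 B2 hB hc
  rw [h2] at hB
  rcases suffix_cases hB with ⟨W, h3⟩ | ⟨W, h3, -⟩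
  · exact h (X ++ y :: W) B2 (by rw [h1, h3]; simp) hc
  · exfalso
    have h4 : p y ∈ B2 := hc y (by rw [h3]; simp)
    have h5 : p y ∈ t.2 := by
      rw [h2, hB]
      exact List.mem_append_right _ h4
    exact (List.nodup_append.1 hwt.nd).2.2 _ hy _ h5 rfl

/-- irreducibility is kept. -/
theorem EM.ir {k : ℕ} {s t : St Ω} (h : EM p k s t) (hw : WF p s) (hi : IrB p s) : IrB p t := by
  have hwt := h.wf hw
  cases h with
  | rot A A' B h => exact hi
  | cm x y z P Q R I P' Q' R' =>
    refine ir_of_tail (X := I ++ p x :: (P' ++ p y :: Q')) (X' := I ++ p y :: (Q' ++ p x :: P')) (y := p z) (Z := R')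
      (by simp) (by simp) ?_ hwt hi
    simp [hw.inv]
  | th1 c x y P Q R D E G F =>
    intro B1 B2 hB hc
    simp only at hB
    have hB' : (D ++ c :: (P ++ p y :: E)) ++ p c :: F = B1 ++ B2 := by rw [← hB]; simp
    rcases suffix_cases hB' with ⟨W, h3⟩ | ⟨W, h3, h4⟩
    · exact hi (D ++ p y :: (E ++ y :: (G ++ p c :: W))) B2 (by simp [h3]) hc
    · exfalso
      -- `c` is in the suffix, hence `p y`, hence `y`
      have hnd := hwt.nd
      have c1 : c ∈ B2 := by
        have := hc (p c) (by rw [h3]; simp)
        rwa [hw.inv] at this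
      have hyt : y ∈ (x :: (Q ++ y :: (G ++ p x :: R))) := by simp
      have hy2 : y ∉ (D ++ c :: (P ++ p y :: (E ++ p c :: F))) := fun h' =>
        (List.nodup_append.1 hnd).2.2 _ hyt _ h' rfl
      have c2 : c ∈ W := by
        rw [h3] at c1
        rcases List.mem_append.1 c1 with h5 | h5
        · exact h5
        · exfalso
          have hn2 := (List.nodup_append.1 hnd).2.1
          simp only [List.nodup_append, List.nodup_cons, List.mem_cons, List.mem_append] at hn2
          rcases List.mem_cons.1 h5 with h6 | h6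
          · exact hw.ne c h6.symm
          · tauto
      obtain ⟨W1, W2, hW⟩ := List.append_of_mem c2
      -- `D ++ c :: (P ++ p y :: E) = B1 ++ W1 ++ c :: W2`
      have h7 : p y ∈ B2 := by
        have e : D ++ c :: (P ++ p y :: E) = (B1 ++ W1) ++ c :: W2 := by rw [h4, hW]; simp
        have hn3 : (D ++ c :: (P ++ p y :: E)).Nodup := by
          have := (List.nodup_append.1 hnd).2.1
          have e2 : D ++ c :: (P ++ p y :: (E ++ p c :: F)) = (D ++ c :: (P ++ p y :: E)) ++ p c :: F := by simp
          simp only at this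
          rw [e2] at this
          exact (List.nodup_append.1 this).1
        have : W2 = P ++ p y :: E := by
          rcases suffix_cases e with ⟨V, h8⟩ | ⟨V, h8, -⟩
          · exfalso
            have : c ∈ P ++ p y :: E := by rw [h8]; simp
            simp only [List.nodup_append, List.nodup_cons] at hn3
            exact hn3.2.1.1 this
          · cases V with
            | nil => simpa using h8
            | cons v V =>
              exfalso
              simp only [List.cons_append, List.cons.injEq] at h8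
              have : c ∈ W2 := by rw [h8.2]; simp
              rw [e] at hn3
              simp only [List.nodup_append, List.nodup_cons] at hn3
              exact hn3.2.1.1 this
        rw [h3, hW, this]
        simp
      have h9 := hc _ h7
      rw [hw.inv] at h9
      apply hy2
      rw [hB]
      exact List.mem_append_right _ h9
  | th2 c x y P Q R D E G F =>
    refine ir_of_tail (X := D ++ y :: (G ++ p c :: F)) (X' := D ++ p c :: (F ++ c :: P)) (y := p y) (Z := E)
      (by simp) (by simp) ?_ hwt hi
    simp [hw.inv]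

theorem Pa.ir {n : ℕ} {s t : St Ω} (h : Pa p n s t) (hw : WF p s) (hi : IrB p s) : IrB p t := by
  induction h with
  | refl _ _ => exact hi
  | head h _ ih => exact ih (h.wf hw) (h.ir hw hi)

/-- the moves without Theta. -/
theorem EM.zero {s t : St Ω} (h : EM p 0 s t) : s.1.Perm t.1 ∧ s.2.Perm t.2 := by
  cases h with
  | rot A A' B h => exact ⟨h.perm, List.Perm.refl _⟩
  | cm x y z P Q R I P' Q' R' =>
    classical
    constructor
    · rw [List.perm_iff_count]
      intro a
      simp only [List.count_append, List.count_cons]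
      omega
    · rw [List.perm_iff_count]
      intro a
      simp only [List.count_append, List.count_cons]
      omega

theorem Pa.zero {n : ℕ} {s t : St Ω} (h : Pa p n s t) (hn : n = 0) : s.1.Perm t.1 ∧ s.2.Perm t.2 := by
  induction h with
  | refl _ _ => exact ⟨List.Perm.refl _, List.Perm.refl _⟩
  | @head k n s t v h _ ih =>
    obtain rfl : k = 0 := by omega
    have h1 := h.zero
    have h2 := ih (by omega)
    exact ⟨h1.1.trans h2.1, h1.2.trans h2.2⟩

/-- Paths without Theta moves, by induction. -/
theorem Pa.ind0 {P : St Ω → Prop} {n : ℕ} {s t : St Ω} (h : Pa p n s t) (hn : n = 0)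
    (hP : ∀ s t, EM p 0 s t → P s → P t) (hs : P s) : P t := by
  induction h with
  | refl _ _ => exact hs
  | @head k n s t v h _ ih =>
    obtain rfl : k = 0 := by omega
    exact ih (by omega) (hP _ _ h hs)

section dec

variable [DecidableEq Ω]

/-- the predecessor of a coloured token is kept by the swaps. -/
theorem EM.pd0 {s t : St Ω} (h : EM p 0 s t) (hw : WF p s) {o : Ω} (ho : Red p s o ∨ Blu p s o) :
    pd t o = pd s o := by
  have hn := hw.nd
  cases h with
  | rot A A' B h =>
    unfold pd sc
    simp only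
    rw [List.formPerm_eq_of_isRotated (List.nodup_append.1 hn).1 h]
  | cm x y z P Q R I P' Q' R' =>
    have h1 := NTS.sg_cm x y z (p x) (p y) (p z) P Q R I P' Q' R' (by simpa using hn)
    have h2 : sc (y :: (Q ++ x :: (P ++ z :: R)), I ++ p y :: (Q' ++ p x :: (P' ++ p z :: R'))) =
        swap x y * swap y z * (swap (p x) (p y) * swap (p y) (p z)) *
        sc (x :: (P ++ y :: (Q ++ z :: R)), I ++ p x :: (P' ++ p y :: (Q' ++ p z :: R'))) := by
      simpa [sc_nts] using h1
    have hd : ∀ a, a ∈ (x :: (P ++ y :: (Q ++ z :: R))) → a ∉ (I ++ p x :: (P' ++ p y :: (Q' ++ p z :: R'))) :=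
      fun a ha hb => (List.nodup_append.1 hn).2.2 a ha a hb rfl
    have key : ∀ w, w ∈ (x :: (P ++ y :: (Q ++ z :: R))) → p w ∈ (I ++ p x :: (P' ++ p y :: (Q' ++ p z :: R'))) →
        o ≠ w ∧ o ≠ p w := by
      intro w h3 h4
      rcases ho with ⟨ho1, ho2⟩ | ⟨ho1, ho2⟩
      · constructor
        · rintro rfl
          exact hd _ ho2 h4
        · rintro rfl
          exact hd _ ho1 h4
      · constructor
        · rintro rfl
          exact hd _ h3 ho1
        · rintro rfl
          rw [hw.inv] at ho2
          exact hd _ h3 ho2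
    have kx := key x (by simp) (by simp)
    have ky := key y (by simp) (by simp)
    have kz := key z (by simp) (by simp)
    unfold pd
    rw [h2]
    rw [Equiv.symm_apply_eq]
    rw [Perm.mul_apply, Equiv.apply_symm_apply]
    simp only [Perm.mul_apply]
    rw [swap_apply_of_ne_of_ne ky.2 kz.2, swap_apply_of_ne_of_ne kx.2 ky.2, swap_apply_of_ne_of_ne ky.1 kz.1,
      swap_apply_of_ne_of_ne kx.1 ky.1]

theorem Pa.pd0 {n : ℕ} {s t : St Ω} (h : Pa p n s t) (hn : n = 0) (hw : WF p s) {o : Ω} (ho : Red p s o ∨ Blu p s o) :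
    pd t o = pd s o := by
  induction h with
  | refl _ _ => rfl
  | @head k n s t v h _ ih =>
    obtain rfl : k = 0 := by omega
    have h1 := h.zero
    rw [ih (by omega) (h.wf hw), h.pd0 hw ho]
    rcases ho with ⟨h2, h3⟩ | ⟨h2, h3⟩
    · exact Or.inl ⟨h1.1.mem_iff.1 h2, h1.1.mem_iff.1 h3⟩
    · exact Or.inr ⟨h1.2.mem_iff.1 h2, h1.2.mem_iff.1 h3⟩

end dec

end NA
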