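import Pool.Agent.helper3.NA.BWK2
import Pool.Agent.helper36.NA.KF
import Pool.Agent.helper32.NA.ATT

/-!
# MP_c8d30a, (A), section 9: the blue walk, only UNRR left as hypothesis
-/

set_option autoImplicit false

namespace NAW

theorem BWKf (unb : UNB_stmt) : BWK_stmt := BWK (fun Ω _ p => att p) unb KBF

end NAW
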