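import Pool.Agent.helper36.NA.DefsW
import Pool.Agent.helper3.NA.StepH2

/-!
# MP_c8d30a, (A), sections 8, 9: lemmas on the distances `Dl`
-/

set_option autoImplicit false

namespace NA

open NTH

universe u
variable {Ω : Type u} {p m : Ω → Ω} {A : Ω → Prop} {f : Ω}

/-- the distance and the end are unique. -/
theorem Dl.uniq {n k : ℕ} {t e e' : Ω} (h : Dl p m A f n t e) (h' : Dl p m A f k t e') : n = k ∧ e = e' := by
  induction h generalizing k e' with
  | zero t h h1 =>
    cases h' with
    | zero _ _ _ => exact ⟨rfl, rfl⟩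
    | one _ _ h1' _ => exact absurd h1 h1'
    | step _ _ _ _ h1' _ _ => exact absurd h1 h1'
  | one t h h1 h2 =>
    cases h' with
    | zero _ _ h1' => exact absurd h1' h1
    | one _ _ _ _ => exact ⟨rfl, rfl⟩
    | step _ _ _ _ _ h2' _ => exact absurd h2' h2
  | step n t e h h1 h2 h3 ih =>
    cases h' with
    | zero _ _ h1' => exact absurd h1' h1
    | one _ _ _ h2' => exact absurd h2 h2'
    | step k _ _ _ _ _ h3' =>
      have := ih h3'
      exact ⟨by omega, this.2⟩

theorem Dl.mne {n : ℕ} {t e : Ω} (h : Dl p m A f n t e) : m t ≠ f := by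
  cases h <;> assumption

theorem Dl.nA {n : ℕ} {t e : Ω} (h : Dl p m A f n t e) (hn : n ≠ 0) : ¬ A (m t) := by
  cases h with
  | zero _ _ _ => exact absurd rfl hn
  | one _ _ h1 _ => exact h1
  | step _ _ _ _ h1 _ _ => exact h1

/-- the end of an even path. -/
theorem Dl.even {k : ℕ} {t e : Ω} (h : Dl p m A f (2 * k) t e) (ht : A t) : A e ∧ A (m e) := by
  induction k generalizing t with
  | zero =>
    cases h with
    | zero _ _ h1 => exact ⟨ht, h1⟩
  | succ k ih =>
    rw [show 2 * (k + 1) = 2 * k + 2 by ring] at h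
    cases h with
    | step _ _ _ _ _ h2 h3 => exact ih h3 h2

/-- the end of an even path of positive length: the token in `B` before it. -/
theorem Dl.even' {k : ℕ} {t e : Ω} (hp : ∀ a, p (p a) = a) (hm : ∀ a, m (m a) = a) (h : Dl p m A f (2 * (k + 1)) t e) (ht : A t) :
    p e ≠ f ∧ ¬ A (p e) ∧ A (m (p e)) := by
  induction k generalizing t with
  | zero =>
    cases h with
    | step _ _ _ h h1 h2 h3 =>
      cases h3 with
      | zero _ _ _ =>
        rw [hp, hm]
        exact ⟨h, h1, ht⟩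
  | succ k ih =>
    rw [show 2 * (k + 1 + 1) = 2 * (k + 1) + 2 by ring] at h
    cases h with
    | step _ _ _ _ _ h2 h3 => exact ih h3 h2

/-- the end of an odd path. -/
theorem Dl.odd {k : ℕ} {t e : Ω} (hm : ∀ a, m (m a) = a) (h : Dl p m A f (2 * k + 1) t e) (ht : A t) :
    e ≠ f ∧ ¬ A e ∧ ¬ A (p e) ∧ A (m e) := by
  induction k generalizing t with
  | zero =>
    cases h with
    | one _ h h1 h2 =>
      rw [hm]
      exact ⟨h, h1, h2, ht⟩
  | succ k ih =>
    rw [show 2 * (k + 1) + 1 = (2 * k + 1) + 2 by ring] at h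
    cases h with
    | step _ _ _ _ _ h2 h3 => exact ih h3 h2

/-- after the flip of `u` and of the end `w` of an odd path. -/
theorem Dl.upd_odd {k : ℕ} {t u w : Ω} (hm : ∀ a, m (m a) = a) (hu : A (m u))
    (h : Dl p m A f (2 * k + 1) t w) (hw : ¬ A (p w)) :
    Dl p m (fun a => (A a ∧ a ≠ u) ∨ a = w) f (2 * k) t (m w) := by
  induction k generalizing t with
  | zero =>
    cases h with
    | one _ h h1 h2 =>
      rw [hm]
      exact .zero t h (Or.inr rfl)
  | succ k ih =>
    rw [show 2 * (k + 1) + 1 = (2 * k + 1) + 2 by ring] at h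
    rw [show 2 * (k + 1) = 2 * k + 2 by ring]
    cases h with
    | step _ _ _ h h1 h2 h3 =>
      refine .step (2 * k) t _ h ?_ ?_ (ih h3)
      · rintro (⟨h4, -⟩ | h4)
        · exact h1 h4
        · rw [h4] at h2
          exact hw h2
      · left
        refine ⟨h2, ?_⟩
        intro h4
        have := h3.nA (by omega)
        rw [h4] at this
        exact this hu

/-- after the flip of the end `u` of an even path of positive length. -/
theorem Dl.upd_even {k : ℕ} {t u w : Ω} (hp : ∀ a, p (p a) = a) (hu : A (m u))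
    (h : Dl p m A f (2 * (k + 1)) t u) (hw : ¬ A w) (hw' : ¬ A (p w)) :
    Dl p m (fun a => (A a ∧ a ≠ u) ∨ a = w) f (2 * k + 1) t (p u) := by
  induction k generalizing t with
  | zero =>
    cases h with
    | step _ _ _ h h1 h2 h3 =>
      cases h3 with
      | zero _ _ h4 =>
        rw [hp]
        refine .one t h ?_ ?_
        · rintro (⟨h5, -⟩ | h5)
          · exact h1 h5
          · rw [h5] at h2
            exact hw' h2
        · rintro (⟨h5, h6⟩ | h5)
          · exact h6 rfl
          · rw [h5] at h2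
            exact hw h2
  | succ k ih =>
    rw [show 2 * (k + 1 + 1) = 2 * (k + 1) + 2 by ring] at h
    rw [show 2 * (k + 1) + 1 = 2 * k + 1 + 2 by ring]
    cases h with
    | step _ _ _ h h1 h2 h3 =>
      refine .step (2 * k + 1) t _ h ?_ ?_ (ih h3)
      · rintro (⟨h4, -⟩ | h4)
        · exact h1 h4
        · rw [h4] at h2
          exact hw' h2
      · left
        refine ⟨h2, ?_⟩
        intro h4
        have := h3.nA (by omega)
        rw [h4] at this
        exact this hu

/-- `Dl` depends only on the values of `A`. -/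
theorem Dl.congr {A' : Ω → Prop} (hA : ∀ a, A' a ↔ A a) {n : ℕ} {t e : Ω} (h : Dl p m A f n t e) : Dl p m A' f n t e := by
  have : A' = A := by
    funext a
    exact propext (hA a)
  rw [this]
  exact h

/-- the length of a path is bounded by the number of tokens. -/
theorem Dl.bound (L : List Ω) (hL : ∀ a, A a → a ∈ L) {n : ℕ} {t e : Ω} (h : Dl p m A f n t e) (ht : A t) :
    n ≤ 2 * L.length := by
  classical
  have key : ∀ n t e, Dl p m A f n t e → A t → ∃ M : List Ω, M.Nodup ∧ n / 2 + 1 = M.length ∧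
      ∀ a ∈ M, A a ∧ ∃ k ≤ n, ∃ e', Dl p m A f k a e' := by
    intro n t e h
    induction h with
    | zero t h h1 =>
      intro ht
      refine ⟨[t], by simp, by simp, ?_⟩
      intro a ha
      obtain rfl : a = t := by simpa using ha
      exact ⟨ht, 0, le_refl _, _, .zero a h h1⟩
    | one t h h1 h2 =>
      intro ht
      refine ⟨[t], by simp, by simp, ?_⟩
      intro a ha
      obtain rfl : a = t := by simpa using ha
      exact ⟨ht, 1, le_refl _, _, .one a h h1 h2⟩
    | step n t e h h1 h2 h3 ih =>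
      intro ht
      obtain ⟨M, m1, m2, m3⟩ := ih h2
      refine ⟨t :: M, ?_, ?_, ?_⟩
      · refine List.nodup_cons.2 ⟨fun h4 => ?_, m1⟩
        obtain ⟨-, k, hk, e', h5⟩ := m3 t h4
        have := (Dl.step n t e h h1 h2 h3).uniq h5
        omega
      · rw [List.length_cons, ← m2]
        omega
      · intro a ha
        rcases List.mem_cons.1 ha with rfl | ha
        · exact ⟨ht, n + 2, le_refl _, _, .step n a e h h1 h2 h3⟩
        · obtain ⟨g1, k, hk, g2⟩ := m3 a ha
          exact ⟨g1, k, by omega, g2⟩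
  obtain ⟨M, m1, m2, m3⟩ := key n t e h ht
  have h1 : M.Subperm L := m1.subperm (fun a ha => hL a (m3 a ha).1)
  have := h1.length_le
  omega

/-- the path reaches the marker edge. -/
inductive Hit (p m : Ω → Ω) (A : Ω → Prop) (f : Ω) : ℕ → Ω → Prop
  | zero (t : Ω) (h : m t = f) : Hit p m A f 0 t
  | step (n : ℕ) (t : Ω) (h : m t ≠ f) (h1 : ¬ A (m t)) (h2 : A (p (m t))) (h3 : Hit p m A f n (p (m t))) :
      Hit p m A f (n + 1) t

/-- the iterates. -/
theorem Hit.iter (hm : ∀ a, m (m a) = a) {n : ℕ} {t : Ω} (h : Hit p m A f n t) (ht : A t) :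
    (fun a => p (m a))^[n] t = m f ∧ (∀ j ≤ n, A ((fun a => p (m a))^[j] t)) ∧
      ∀ j < n, ¬ A (m ((fun a => p (m a))^[j] t)) := by
  induction h with
  | zero t h =>
    refine ⟨?_, ?_, ?_⟩
    · rw [← h, hm]
      rfl
    · intro j hj
      obtain rfl : j = 0 := by omega
      exact ht
    · intro j hj
      omega
  | step n t h h1 h2 h3 ih =>
    obtain ⟨g1, g2, g3⟩ := ih h2
    refine ⟨by rw [Function.iterate_succ_apply]; exact g1, ?_, ?_⟩
    · intro j hj
      cases j with
      | zero => exact ht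
      | succ j =>
        rw [Function.iterate_succ_apply]
        exact g2 j (by omega)
    · intro j hj
      cases j with
      | zero => exact h1
      | succ j =>
        rw [Function.iterate_succ_apply]
        exact g3 j (by omega)

theorem pm_inj (hm : ∀ a, m (m a) = a) (hp : ∀ a, p (p a) = a) : Function.Injective (fun a => p (m a)) := by
  intro a b hab
  have h1 : m a = m b := by rw [← hp (m a), ← hp (m b)]; exact congrArg p hab
  rw [← hm a, ← hm b, h1]

/-- two starting tokens whose paths reach the marker edge are equal. -/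
theorem Hit.eq (hm : ∀ a, m (m a) = a) (hp : ∀ a, p (p a) = a) {n k : ℕ} {t t' : Ω} (h : Hit p m A f n t)
    (h' : Hit p m A f k t') (ht : A t) (ht' : A t') (he : A (p t) ∨ ¬ A (m (p t)))
    (he' : A (p t') ∨ ¬ A (m (p t'))) : t = t' := by
  have hinj := pm_inj hm hp
  have key : ∀ (n k : ℕ) (t t' : Ω), n ≤ k → Hit p m A f n t → Hit p m A f k t' → A t → A t' →
      (A (p t) ∨ ¬ A (m (p t))) → t = t' := by
    intro n k t t' hnk h h' ht ht' he
    have g1 := (h.iter hm ht).1
    obtain ⟨g2, g3, g5⟩ := h'.iter hm ht'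
    obtain ⟨j, rfl⟩ : ∃ j, k = n + j := ⟨k - n, by omega⟩
    rw [Function.iterate_add_apply, ← g1] at g2
    have g4 := (hinj.iterate n) g2
    cases j with
    | zero => exact g4.symm
    | succ j =>
      exfalso
      rw [Function.iterate_succ_apply'] at g4
      have g6 : p t = m ((fun a => p (m a))^[j] t') := by rw [← g4, hp]
      rcases he with he | he
      · rw [g6] at he
        exact g5 j (by omega) he
      · rw [g6, hm] at he
        exact he (g3 j (by omega))
  rcases le_total n k with h1 | h1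
  · exact key n k t t' h1 h h' ht ht' he
  · exact (key k n t' t h1 h' h ht' ht he').symm

/-- every path from a starting token stops. -/
theorem Dl_or_Hit (L : List Ω) (hL : ∀ a, A a → a ∈ L) (hm : ∀ a, m (m a) = a) (hp : ∀ a, p (p a) = a) {t : Ω} (ht : A t)
    (he : A (p t) ∨ ¬ A (m (p t))) : (∃ n e, Dl p m A f n t e) ∨ (∃ n, Hit p m A f n t) := by
  classical
  by_contra hcon
  push Not at hcon
  obtain ⟨hc1, hc2⟩ := hcon
  have hinj := pm_inj hm hp
  have key : ∀ k : ℕ, A ((fun a => p (m a))^[k] t) ∧ (∀ n e, ¬ Dl p m A f n ((fun a => p (m a))^[k] t) e) ∧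
      (∀ n, ¬ Hit p m A f n ((fun a => p (m a))^[k] t)) := by
    intro k
    induction k with
    | zero => exact ⟨ht, hc1, hc2⟩
    | succ k ih =>
      obtain ⟨g1, g2, g3⟩ := ih
      rw [Function.iterate_succ_apply']
      have a1 : m ((fun a => p (m a))^[k] t) ≠ f := fun h => g3 0 (.zero _ h)
      have a2 : ¬ A (m ((fun a => p (m a))^[k] t)) := fun h => g2 0 _ (.zero _ a1 h)
      have a3 : A (p (m ((fun a => p (m a))^[k] t))) := by
        by_contra h
        exact g2 1 _ (.one _ a1 a2 h)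
      exact ⟨a3, fun n e h => g2 _ _ (.step n _ e a1 a2 a3 h), fun n h => g3 _ (.step n _ a1 a2 a3 h)⟩
  have hni : ¬ Function.Injective (fun k : ℕ => (fun a => p (m a))^[k] t) := by
    intro hi
    have h1 : (Set.range (fun k : ℕ => (fun a => p (m a))^[k] t)).Infinite := Set.infinite_range_of_injective hi
    apply h1
    refine Set.Finite.subset (List.finite_toSet L) ?_
    rintro a ⟨k, rfl⟩
    exact hL _ (key k).1
  rw [Function.Injective] at hni
  push Not at hni
  obtain ⟨i, j, h1, h2⟩ := hni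
  have fin : ∀ i j : ℕ, i < j → (fun a => p (m a))^[i] t = (fun a => p (m a))^[j] t → False := by
    intro i j hij h
    obtain ⟨d, rfl⟩ : ∃ d, j = i + (d + 1) := ⟨j - i - 1, by omega⟩
    rw [Function.iterate_add_apply] at h
    have g4 := (hinj.iterate i) h
    rw [Function.iterate_succ_apply'] at g4
    obtain ⟨k1, k2, k3⟩ := key d
    have a1 : m ((fun a => p (m a))^[d] t) ≠ f := fun h => k3 0 (.zero _ h)
    have a2 : ¬ A (m ((fun a => p (m a))^[d] t)) := fun h => k2 0 _ (.zero _ a1 h)
    have g6 : p t = m ((fun a => p (m a))^[d] t) := by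
      conv_lhs => rw [g4]
      rw [hp]
    rcases he with he | he
    · rw [g6] at he
      exact a2 he
    · rw [g6, hm] at he
      exact he k1
  rcases lt_or_gt_of_ne h2 with h3 | h3
  · exact fin i j h3 h1
  · exact fin j i h3 h1.symm

/-- of two starting tokens, one has a finite distance. -/
theorem Dl_of_two (L : List Ω) (hL : ∀ a, A a → a ∈ L) (hm : ∀ a, m (m a) = a) (hp : ∀ a, p (p a) = a) {t t' : Ω} (ht : A t)
    (he : A (p t) ∨ ¬ A (m (p t))) (ht' : A t') (he' : A (p t') ∨ ¬ A (m (p t'))) (hne : t ≠ t') :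
    (∃ n e, Dl p m A f n t e) ∨ (∃ n e, Dl p m A f n t' e) := by
  rcases Dl_or_Hit (f := f) L hL hm hp ht he with h | ⟨n, h⟩
  · exact Or.inl h
  rcases Dl_or_Hit (f := f) L hL hm hp ht' he' with h' | ⟨k, h'⟩
  · exact Or.inr h'
  exact absurd (h.eq hm hp h' ht ht' he he') hne

/-- restriction to a set closed under `p` and `m`. -/
theorem Dl.of_res (T : Finset Ω) (hT : ∀ t ∈ T, p t ∈ T ∧ m t ∈ T) {n : ℕ} {t e : Ω}
    (h : Dl p m (fun a => A a ∧ a ∈ T) f n t e) (ht : t ∈ T) : Dl p m A f n t e := by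
  induction h with
  | zero t h h1 => exact .zero t h h1.1
  | one t h h1 h2 =>
    have h3 := (hT t ht).2
    exact .one t h (fun h' => h1 ⟨h', h3⟩) (fun h' => h2 ⟨h', (hT _ h3).1⟩)
  | step n t e h h1 h2 h3 ih =>
    have h4 := (hT t ht).2
    exact .step n t e h (fun h' => h1 ⟨h', h4⟩) h2.1 (ih h2.2)

/-- `NAW.DLX_stmt`. -/
theorem DLX [DecidableEq Ω] (p m : Ω → Ω) (A : Ω → Prop) (f : Ω) (T : Finset Ω)
    (hp : ∀ t, p (p t) = t) (hm : ∀ t, m (m t) = t) (hT : ∀ t ∈ T, p t ∈ T ∧ m t ∈ T) (t : Ω) (ht : t ∈ T) (t' : Ω)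
    (ht' : t' ∈ T) (hne : t ≠ t') (hA : A t) (hA' : A t') (he : A (p t) ∨ ¬ A (m (p t)))
    (he' : A (p t') ∨ ¬ A (m (p t'))) : ∃ n ≤ 2 * T.card + 1, ∃ e, Dl p m A f n t e ∨ Dl p m A f n t' e := by
  have hL : ∀ a, (A a ∧ a ∈ T) → a ∈ T.toList := fun a ha => by simpa using ha.2
  have key : ∀ t ∈ T, (A (p t) ∨ ¬ A (m (p t))) → ((A (p t) ∧ p t ∈ T) ∨ ¬ (A (m (p t)) ∧ m (p t) ∈ T)) := by
    intro t ht h
    rcases h with h | h
    · exact Or.inl ⟨h, (hT t ht).1⟩
    · exact Or.inr (fun h' => h h'.1)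
  rcases Dl_of_two (f := f) (A := fun a => A a ∧ a ∈ T) T.toList hL hm hp ⟨hA, ht⟩ (key t ht he) ⟨hA', ht'⟩ (key t' ht' he') hne
    with ⟨n, e, h⟩ | ⟨n, e, h⟩
  · have hb := h.bound T.toList hL ⟨hA, ht⟩
    rw [Finset.length_toList] at hb
    exact ⟨n, by omega, e, Or.inl (h.of_res T hT ht)⟩
  · have hb := h.bound T.toList hL ⟨hA', ht'⟩
    rw [Finset.length_toList] at hb
    exact ⟨n, by omega, e, Or.inr (h.of_res T hT ht')⟩

end NA
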