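import Pool.Agent.helper36.NA.SpecW
import Pool.Agent.helper3.NA.DlL

set_option autoImplicit false

namespace NAW

open NTH NA

theorem DLX : DLX_stmt := fun _ _ p m A f T hp hm hT t ht t' ht' hne hA hA' he he' =>
  NA.DLX p m A f T hp hm hT t ht t' ht' hne hA hA' he he'

end NAW
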